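import Pool.Agent.J6H13.MF.Cert
import Pool.Agent.N610.MS.CNT

set_option autoImplicit false

/-!
# Sieving by cells of primes: the limits
-/

namespace Pool.Agent.J6H13.MF

open Finset Filter Topology
open Pool.Agent.N610.MS
open Pool.Agent.N610.MS.CNTaux

/-- a cell of primes without the removed primes -/
noncomputable def cell (z : ℝ) (N : ℕ) (S : Finset ℕ) (ps i : ℕ) : Finset ℕ :=
  (Ioc ⌊z ^ ((i : ℝ) / N)⌋₊ ⌊z ^ (((i : ℝ) + 1) / N)⌋₊).filter
    (fun p => p.Prime ∧ p ∉ S ∧ p ≠ ps)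

lemma mem_cell {z : ℝ} (hz : 0 < z) {N : ℕ} {S : Finset ℕ} {ps i p : ℕ} :
    p ∈ cell z N S ps i ↔ z ^ ((i : ℝ) / N) < p ∧ (p : ℝ) ≤ z ^ (((i : ℝ) + 1) / N) ∧
      p.Prime ∧ p ∉ S ∧ p ≠ ps := by
  rw [cell, mem_filter, mem_Ioc, Nat.floor_lt (Real.rpow_nonneg hz.le _),
    Nat.le_floor_iff (Real.rpow_nonneg hz.le _)]
  tauto

lemma cell_ev (N : ℕ) (hN : 0 < N) (i : ℕ) (hi : 1 ≤ i) (μ : ℝ) (hμ : 0 < μ) :
    ∀ᶠ z : ℝ in atTop, ∀ (S : Finset ℕ) (ps : ℕ), ∑ q ∈ S, (1 : ℝ) / q ≤ μ / 3 →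
      |∑ p ∈ cell z N S ps i, 1 / (p : ℝ) - Real.log (((i : ℝ) + 1) / i)| ≤ μ := by
  have hN0 : (0 : ℝ) < N := by exact_mod_cast hN
  have hi0 : (0 : ℝ) < i := by exact_mod_cast hi
  have h1 := Pool.Agent.H510R2.Maier.R1_cell 1 1 (((i : ℝ) + 1) / N) ((i : ℝ) / N) one_pos one_pos
    (by positivity) (by positivity)
  have e1 : ((i : ℝ) + 1) / N / ((i : ℝ) / N) = ((i : ℝ) + 1) / i := by field_simp
  rw [e1] at h1
  have h2 : Tendsto (fun L : ℝ => Pool.Agent.H510R2.Maier.R1 ⌊1 * L ^ (((i : ℝ) + 1) / N)⌋₊ -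
      Pool.Agent.H510R2.Maier.R1 ⌊1 * L ^ ((i : ℝ) / N)⌋₊ - Real.log (((i : ℝ) + 1) / i))
      atTop (𝓝 0) := by
    have := h1.sub_const (Real.log (((i : ℝ) + 1) / i))
    rwa [sub_self] at this
  have h3 := h2.abs
  rw [abs_zero] at h3
  have E1 := h3.eventually (eventually_le_nhds (show (0 : ℝ) < μ / 3 by positivity))
  have E3 : ∀ᶠ L : ℝ in atTop, 1 / L ^ ((i : ℝ) / N) ≤ μ / 3 := by
    have h3 : Tendsto (fun L : ℝ => 1 / L ^ ((i : ℝ) / N)) atTop (𝓝 0) :=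
      (tendsto_rpow_atTop (by positivity)).const_div_atTop 1
    exact h3.eventually (eventually_le_nhds (by positivity))
  filter_upwards [E1, E3, eventually_gt_atTop (1 : ℝ)] with z g1 g2 g3 S ps hS
  have hz : 0 < z := by linarith
  rw [one_mul, one_mul, R1_sub _ _ (by
    apply Nat.floor_le_floor
    apply Real.rpow_le_rpow_of_exponent_le g3.le
    apply div_le_div_of_nonneg_right _ hN0.le
    linarith)] at g1
  have hw : 0 < z ^ ((i : ℝ) / N) := Real.rpow_pos_of_pos hz _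
  have hrem := removed S ps ⌊z ^ ((i : ℝ) / N)⌋₊ ⌊z ^ (((i : ℝ) + 1) / N)⌋₊ _ hw (by
    intro p hp
    exact ((Nat.floor_lt hw.le).mp hp).le)
  have hsub : cell z N S ps i ⊆
      (Ioc ⌊z ^ ((i : ℝ) / N)⌋₊ ⌊z ^ (((i : ℝ) + 1) / N)⌋₊).filter Nat.Prime := by
    intro p hp
    rw [cell, mem_filter] at hp
    rw [mem_filter]
    exact ⟨hp.1, hp.2.1⟩
  have hle : ∑ p ∈ cell z N S ps i, 1 / (p : ℝ) ≤
      ∑ p ∈ (Ioc ⌊z ^ ((i : ℝ) / N)⌋₊ ⌊z ^ (((i : ℝ) + 1) / N)⌋₊).filter Nat.Prime, 1 / (p : ℝ) :=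
    sum_le_sum_of_subset_of_nonneg hsub (fun p _ _ => by positivity)
  have hrem' : ∑ p ∈ (Ioc ⌊z ^ ((i : ℝ) / N)⌋₊ ⌊z ^ (((i : ℝ) + 1) / N)⌋₊).filter Nat.Prime,
      1 / (p : ℝ) ≤ ∑ p ∈ cell z N S ps i, 1 / (p : ℝ) + ∑ q ∈ S, (1 : ℝ) / q +
        1 / z ^ ((i : ℝ) / N) := hrem
  rw [abs_le] at g1 ⊢
  constructor <;> linarith

/-- `∏ i / (i + 1)` -/
noncomputable def pr (I : List ℕ) : ℝ := ∏ i ∈ I.toFinset, ((i : ℝ) / ((i : ℝ) + 1))

/-- the density of the integers free of the primes of `P` -/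
lemma prod_bounds {P : Finset ℕ} {τ : ℝ} (hτ : τ ≤ 1 / 2)
    (hP : ∀ p ∈ P, 0 < p ∧ 1 / (p : ℝ) ≤ τ) :
    Real.exp (-((1 + 2 * τ) * ∑ p ∈ P, 1 / (p : ℝ))) ≤ ∏ p ∈ P, (1 - 1 / (p : ℝ)) ∧
      ∏ p ∈ P, (1 - 1 / (p : ℝ)) ≤ Real.exp (-∑ p ∈ P, 1 / (p : ℝ)) := by
  constructor
  · rw [mul_sum, ← sum_neg_distrib, Real.exp_sum]
    refine prod_le_prod (fun p _ => (Real.exp_pos _).le) fun p hp => ?_
    obtain ⟨h1, h2⟩ := hP p hp
    have hp0 : (0 : ℝ) < p := by exact_mod_cast h1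
    set x := 1 / (p : ℝ) with hx
    have hx0 : 0 < x := by positivity
    have hx1 : 0 < 1 - x := by linarith
    have h3 := Real.one_sub_inv_le_log_of_pos hx1
    have h4 : -((1 + 2 * τ) * x) ≤ Real.log (1 - x) := by
      refine le_trans ?_ h3
      have h5 : 1 - (1 - x)⁻¹ = -(x / (1 - x)) := by field_simp; ring
      rw [h5, neg_le_neg_iff, div_le_iff₀ hx1]
      have h6 : 1 ≤ (1 + 2 * τ) * (1 - x) := by nlinarith
      nlinarith
    calc Real.exp (-((1 + 2 * τ) * x)) ≤ Real.exp (Real.log (1 - x)) := Real.exp_le_exp.2 h4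
      _ = 1 - x := Real.exp_log hx1
  · rw [← sum_neg_distrib, Real.exp_sum]
    refine prod_le_prod (fun p hp => ?_) fun p hp => ?_
    · obtain ⟨h1, h2⟩ := hP p hp
      linarith
    · have := Real.add_one_le_exp (-(1 / (p : ℝ)))
      linarith

lemma pr_pos (I : List ℕ) (hI : ∀ i ∈ I, 1 ≤ i) : 0 < pr I := by
  refine prod_pos fun i hi => ?_
  have : 1 ≤ i := hI i (List.mem_toFinset.1 hi)
  have hi0 : (0 : ℝ) < i := by exact_mod_cast this
  positivity

lemma pr_eq (I : List ℕ) (hI : ∀ i ∈ I, 1 ≤ i) :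
    pr I = Real.exp (-∑ i ∈ I.toFinset, Real.log (((i : ℝ) + 1) / i)) := by
  rw [pr, ← sum_neg_distrib, Real.exp_sum]
  refine prod_congr rfl fun i hi => ?_
  have : 1 ≤ i := hI i (List.mem_toFinset.1 hi)
  have hi0 : (0 : ℝ) < i := by exact_mod_cast this
  rw [Real.exp_neg, Real.exp_log (by positivity), inv_div]

set_option maxHeartbeats 1000000 in
/-- the choice of the primes of the modulus -/
theorem asy (N : ℕ) (hN : 0 < N) (I : List ℕ) (hI : ∀ i ∈ I, 1 ≤ i ∧ i < N) (hnd : I.Nodup)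
    (U : ℕ) (β : ℝ) (hβ : 0 < β) :
    ∃ μ0 : ℝ, 0 < μ0 ∧ ∀ᶠ z : ℝ in atTop, ∀ (S : Finset ℕ) (ps : ℕ),
      ∑ q ∈ S, (1 : ℝ) / q ≤ μ0 →
      ∃ P : Finset ℕ, (∀ p ∈ P, p.Prime ∧ (p : ℝ) ≤ z ∧ p ∉ S ∧ p ≠ ps) ∧
        pr I / 2 ≤ ∏ p ∈ P, (1 - 1 / (p : ℝ)) ∧
        ∀ y : ℝ, z ^ ((U : ℝ) / N) ≤ y → y ≤ z ^ (((U : ℝ) + 1) / N) →
          loR (runD I (initD U)) U / pr I - β ≤ rel P y ∧
          rel P y ≤ upR (runD I (initD U)) U / pr I + β := by
  classical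
  have hI1 : ∀ i ∈ I, 1 ≤ i := fun i hi => (hI i hi).1
  have hN0 : (0 : ℝ) < N := by exact_mod_cast hN
  have hpr := pr_pos I hI1
  obtain ⟨m, hm⟩ : ∃ m : ℕ, m = I.length := ⟨_, rfl⟩
  have hm0 : (0 : ℝ) ≤ m := Nat.cast_nonneg _
  obtain ⟨β', hβ'0, hβ'1, hβ'2⟩ : ∃ β' : ℝ, 0 < β' ∧ β' ≤ 1 / 4 ∧ β' ≤ β * pr I / 4 :=
    ⟨min (1 / 4) (β * pr I / 4), by positivity, min_le_left _ _, min_le_right _ _⟩
  obtain ⟨μ, hμ0, hμ1, hμ2⟩ : ∃ μ : ℝ, 0 < μ ∧ μ ≤ β' / (5 * (m + 1)) ∧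
      μ ≤ β * pr I / (4 * 10 ^ m) :=
    ⟨min (β' / (5 * (m + 1))) (β * pr I / (4 * 10 ^ m)), by positivity, min_le_left _ _,
      min_le_right _ _⟩
  have hμm : 5 * (m + 1) * μ ≤ β' := by
    rw [le_div_iff₀ (by positivity)] at hμ1
    linarith
  have hμe : 10 ^ m * μ ≤ β * pr I / 4 := by
    rw [le_div_iff₀ (by positivity)] at hμ2
    linarith
  have hμh : μ ≤ 1 / 20 := by nlinarith
  refine ⟨μ / 3, by positivity, ?_⟩
  have hcells : ∀ᶠ z : ℝ in atTop, ∀ i ∈ I.toFinset, ∀ (S : Finset ℕ) (ps : ℕ),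
      ∑ q ∈ S, (1 : ℝ) / q ≤ μ / 3 →
      |∑ p ∈ cell z N S ps i, 1 / (p : ℝ) - Real.log (((i : ℝ) + 1) / i)| ≤ μ := by
    rw [Filter.eventually_all_finset]
    intro i hi
    exact cell_ev N hN i (hI1 i (List.mem_toFinset.1 hi)) μ hμ0
  have E3 : ∀ᶠ L : ℝ in atTop, 1 / L ^ (1 / (N : ℝ)) ≤ μ := by
    have h3 : Tendsto (fun L : ℝ => 1 / L ^ (1 / (N : ℝ))) atTop (𝓝 0) :=
      (tendsto_rpow_atTop (by positivity)).const_div_atTop 1
    exact h3.eventually (eventually_le_nhds hμ0)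
  filter_upwards [hcells, E3, eventually_gt_atTop (1 : ℝ)] with z g1 g2 g3 S ps hS
  have hz : 0 < z := by linarith
  have g1' : ∀ i ∈ I, |∑ p ∈ cell z N S ps i, 1 / (p : ℝ) - Real.log (((i : ℝ) + 1) / i)| ≤ μ :=
    fun i hi => g1 i (List.mem_toFinset.2 hi) S ps hS
  have hmem : ∀ i ∈ I, ∀ p ∈ cell z N S ps i, p.Prime ∧ z ^ ((i : ℝ) / N) < p ∧
      (p : ℝ) ≤ z ^ (((i : ℝ) + 1) / N) := by
    intro i _ p hp
    rw [mem_cell hz] at hp
    exact ⟨hp.2.2.1, hp.1, hp.2.1⟩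
  have hdis : ∀ i j : ℕ, i ≠ j → Disjoint (cell z N S ps i) (cell z N S ps j) := by
    have key : ∀ i j : ℕ, i < j → Disjoint (cell z N S ps i) (cell z N S ps j) := by
      intro i j hij
      rw [disjoint_left]
      intro p hp hp'
      rw [mem_cell hz] at hp hp'
      have h1 : z ^ (((i : ℝ) + 1) / N) ≤ z ^ ((j : ℝ) / N) := by
        apply Real.rpow_le_rpow_of_exponent_le g3.le
        apply div_le_div_of_nonneg_right _ hN0.le
        exact_mod_cast hij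
      linarith [hp.2.1, hp'.1]
    intro i j hij
    rcases Nat.lt_or_gt_of_ne hij with h | h
    · exact key i j h
    · exact (key j i h).symm
  have hrun := inv_run (U := U) g3 hN hμ0.le (by linarith) (cell z N S ps) I ∅ (initD U) μ hI1 hmem g1'
    (by simp) (by simp) (hnd.imp (fun {a b} h => hdis a b h)) (init_gd U) le_rfl
    (init_inv g3 hN hμ0.le g2)
  rw [empty_union, ← hm] at hrun
  set P := I.toFinset.biUnion (cell z N S ps) with hPdef
  have hPmem : ∀ p ∈ P, ∃ i ∈ I, p ∈ cell z N S ps i := by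
    intro p hp
    obtain ⟨i, hi, hpi⟩ := mem_biUnion.1 hp
    exact ⟨i, List.mem_toFinset.1 hi, hpi⟩
  have hsum : ∑ p ∈ P, 1 / (p : ℝ) = ∑ i ∈ I.toFinset, ∑ p ∈ cell z N S ps i, 1 / (p : ℝ) := by
    rw [hPdef]
    apply sum_biUnion
    intro i _ j _ hij
    exact hdis i j hij
  set Λ := ∑ i ∈ I.toFinset, Real.log (((i : ℝ) + 1) / i) with hΛ
  have hcard : (I.toFinset.card : ℝ) = m := by
    rw [hm, List.toFinset_card_of_nodup hnd]
  have hΛ1 : Λ ≤ m := by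
    rw [← hcard, ← nsmul_one, ← sum_const]
    refine sum_le_sum fun i hi => ?_
    have hi1 : 1 ≤ i := hI1 i (List.mem_toFinset.1 hi)
    have hi0 : (0 : ℝ) < i := by exact_mod_cast hi1
    refine (log_upper hi1).trans ?_
    rw [div_le_one (by positivity)]
    have : (1 : ℝ) ≤ i := by exact_mod_cast hi1
    nlinarith
  have hΛ0 : 0 ≤ Λ := by
    refine sum_nonneg fun i hi => ?_
    have hi1 : 1 ≤ i := hI1 i (List.mem_toFinset.1 hi)
    refine le_trans ?_ (log_lower hi1)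
    positivity
  have hS1 : |∑ p ∈ P, 1 / (p : ℝ) - Λ| ≤ m * μ := by
    rw [hsum, hΛ, ← sum_sub_distrib]
    refine (abs_sum_le_sum_abs _ _).trans ?_
    rw [← hcard, ← nsmul_eq_mul, ← sum_const]
    exact sum_le_sum fun i hi => g1' i (List.mem_toFinset.1 hi)
  rw [abs_le] at hS1
  have hPb : ∀ p ∈ P, 0 < p ∧ 1 / (p : ℝ) ≤ μ := by
    intro p hp
    obtain ⟨i, hi, hpi⟩ := hPmem p hp
    obtain ⟨h1, h2, h3⟩ := hmem i hi p hpi
    refine ⟨h1.pos, le_trans ?_ g2⟩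
    have hi1 : (1 : ℝ) ≤ i := by exact_mod_cast hI1 i hi
    apply one_div_le_one_div_of_le (Real.rpow_pos_of_pos hz _)
    refine le_trans ?_ h2.le
    apply Real.rpow_le_rpow_of_exponent_le g3.le
    exact div_le_div_of_nonneg_right hi1 hN0.le
  obtain ⟨hB1, hB2⟩ := prod_bounds (by linarith) hPb
  set B := ∏ p ∈ P, (1 - 1 / (p : ℝ)) with hB
  set T := ∑ p ∈ P, 1 / (p : ℝ) with hT
  have hT0 : 0 ≤ T := sum_nonneg fun p _ => by positivity
  have hprE : pr I = Real.exp (-Λ) := pr_eq I hI1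
  have hBhi : B ≤ pr I * (1 + β') := by
    refine hB2.trans ?_
    have h1 : Real.exp (-T) ≤ Real.exp (-Λ) * Real.exp (m * μ) := by
      rw [← Real.exp_add]
      apply Real.exp_le_exp.2
      linarith
    rw [hprE]
    refine h1.trans (mul_le_mul_of_nonneg_left ?_ (Real.exp_pos _).le)
    have hx0 : 0 ≤ m * μ := by positivity
    have hx1 : 5 * (m * μ) ≤ β' := by nlinarith
    have h2 : 1 - m * μ ≤ Real.exp (-(m * μ)) := by
      have := Real.add_one_le_exp (-(m * μ))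
      linarith
    have h3 : Real.exp (m * μ) * Real.exp (-(m * μ)) = 1 := by
      rw [← Real.exp_add]
      simp
    have h4 : Real.exp (m * μ) * (1 - m * μ) ≤ 1 :=
      (mul_le_mul_of_nonneg_left h2 (Real.exp_pos _).le).trans (le_of_eq h3)
    have h5 : 1 ≤ (1 + β') * (1 - m * μ) := by nlinarith
    have h6 : 0 < 1 - m * μ := by linarith
    exact le_of_mul_le_mul_right (h4.trans h5) h6
  have hBlo : pr I * (1 - β') ≤ B := by
    refine le_trans ?_ hB1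
    have h1 : (1 + 2 * μ) * T ≤ Λ + β' := by
      have h2 : T ≤ Λ + m * μ := by linarith
      have h3 : (1 + 2 * μ) * T ≤ (1 + 2 * μ) * (Λ + m * μ) :=
        mul_le_mul_of_nonneg_left h2 (by linarith)
      have h4 : 2 * μ * Λ ≤ 2 * μ * m := mul_le_mul_of_nonneg_left hΛ1 (by linarith)
      have h5 : 2 * μ * (m * μ) ≤ 1 * (m * μ) :=
        mul_le_mul_of_nonneg_right (by linarith) (by positivity)
      nlinarith
    have h2 : Real.exp (-(Λ + β')) ≤ Real.exp (-((1 + 2 * μ) * T)) := by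
      apply Real.exp_le_exp.2
      linarith
    refine le_trans ?_ h2
    rw [neg_add, Real.exp_add, ← hprE]
    apply mul_le_mul_of_nonneg_left _ hpr.le
    have := Real.add_one_le_exp (-β')
    linarith
  have hB0 : 0 < B := lt_of_lt_of_le (by
    apply mul_pos hpr
    linarith) hBlo
  refine ⟨P, ?_, ?_, ?_⟩
  · intro p hp
    obtain ⟨i, hi, hpi⟩ := hPmem p hp
    rw [mem_cell hz] at hpi
    refine ⟨hpi.2.2.1, hpi.2.1.trans ?_, hpi.2.2.2.1, hpi.2.2.2.2⟩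
    calc z ^ (((i : ℝ) + 1) / N) ≤ z ^ (1 : ℝ) := by
          apply Real.rpow_le_rpow_of_exponent_le g3.le
          rw [div_le_one hN0]
          exact_mod_cast (hI i hi).2
      _ = z := Real.rpow_one z
  · refine le_trans ?_ hBlo
    nlinarith
  · intro y hy0 hy1
    obtain ⟨h1, h2⟩ := hrun U le_rfl y hy0 hy1
    have hypos : 0 < y := lt_of_lt_of_le (Real.rpow_pos_of_pos hz _) hy0
    have hrel : rel P y = (V P ⌊y⌋₊ : ℝ) / y / B := by
      unfold rel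
      rw [← hB, div_div]
    rw [hrel]
    have h3 : loR (runD I (initD U)) U - 10 ^ m * μ ≤ (V P ⌊y⌋₊ : ℝ) / y := by
      rw [le_div_iff₀ hypos]
      exact h1
    have h4 : (V P ⌊y⌋₊ : ℝ) / y ≤ upR (runD I (initD U)) U + 10 ^ m * μ := by
      rw [div_le_iff₀ hypos]
      exact h2
    have hg : Gd U (runD I (initD U)) := by
      have : ∀ (J : List ℕ) (st : List ℕ × List ℕ), Gd U st → Gd U (runD J st) := by
        intro J
        induction J with
        | nil => intro st h; exact h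
        | cons i J ih => intro st h; exact ih _ (step_gd h)
      exact this I _ (init_gd U)
    have hlo1 : loR (runD I (initD U)) U ≤ 1 := by
      unfold loR
      rw [div_le_one (by norm_num)]
      exact_mod_cast hg.b1 U
    have hup1 : upR (runD I (initD U)) U ≤ 1 := by
      unfold upR
      rw [div_le_one (by norm_num)]
      exact_mod_cast hg.b2 U
    have hlo0 : 0 ≤ loR (runD I (initD U)) U := by unfold loR; positivity
    have hup0 : 0 ≤ upR (runD I (initD U)) U := by unfold upR; positivity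
    set lo := loR (runD I (initD U)) U with hlo
    set up := upR (runD I (initD U)) U with hup
    have hβp : 0 < β * pr I := mul_pos hβ hpr
    constructor
    · rw [le_div_iff₀ hB0]
      rcases le_or_gt (lo / pr I - β) 0 with hc | hc
      · have h5 : 0 ≤ (V P ⌊y⌋₊ : ℝ) / y := by positivity
        have h6 : (lo / pr I - β) * B ≤ 0 := mul_nonpos_of_nonpos_of_nonneg hc hB0.le
        linarith
      · have h5 : (lo / pr I - β) * B ≤ (lo / pr I - β) * (pr I * (1 + β')) :=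
          mul_le_mul_of_nonneg_left hBhi hc.le
        have h6 : (lo / pr I - β) * (pr I * (1 + β')) = (lo - β * pr I) * (1 + β') := by
          field_simp
        rw [h6] at h5
        nlinarith
    · rw [div_le_iff₀ hB0]
      have h5 : (up / pr I + β) * (pr I * (1 - β')) ≤ (up / pr I + β) * B :=
        mul_le_mul_of_nonneg_left hBlo (by positivity)
      have h6 : (up / pr I + β) * (pr I * (1 - β')) = (up + β * pr I) * (1 - β') := by
        field_simp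
      rw [h6] at h5
      refine h4.trans (le_trans ?_ h5)
      have h7 : up * β' ≤ 1 * β' := mul_le_mul_of_nonneg_right hup1 hβ'0.le
      have h8 : β * pr I * β' ≤ β * pr I * (1 / 4) := mul_le_mul_of_nonneg_left hβ'1 hβp.le
      nlinarith

end Pool.Agent.J6H13.MF
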