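import Pool.Agent.J6H13.MF.Dp

set_option autoImplicit false

/-!
# Sieving by cells of primes: the recursion for the bounds, with natural numbers
-/

namespace Pool.Agent.J6H13.MF

open Finset
open Pool.Agent.N610.MS

/-- maxima of adjacent entries -/
def adjMax : ℕ → List ℕ → List ℕ
  | _, [] => []
  | a, b :: l => (bif Nat.ble a b then b else a) :: adjMax b l

/-- minima of adjacent entries -/
def adjMin : ℕ → List ℕ → List ℕ
  | _, [] => []
  | a, b :: l => (bif Nat.ble a b then a else b) :: adjMin b l

/-- the entries of the first list from the place `i` on are diminished by `(c m + d) / e`, `m` the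
entries of the second list -/
def zs (c d e : ℕ) : ℕ → List ℕ → List ℕ → List ℕ
  | 0, a :: l, m :: ms => (a - (c * m + d) / e) :: zs c d e 0 l ms
  | (i+1), a :: l, ms => a :: zs c d e i l ms
  | _, _, _ => []

/-- one cell -/
def stepD (i : ℕ) (st : List ℕ × List ℕ) : List ℕ × List ℕ :=
  let lo' := zs (2 * i + 1) (2 * i * (i + 1) - 1) (2 * i * (i + 1)) i st.1 (adjMax 0 st.2)
  let up' := zs 2 0 (2 * i + 1) i st.2 (adjMin 0 lo')
  (lo', up')

/-- the cells of the list `I` -/
def runD : List ℕ → List ℕ × List ℕ → List ℕ × List ℕ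
  | [], st => st
  | i :: I, st => runD I (stepD i st)

/-- no primes -/
def initD (U : ℕ) : List ℕ × List ℕ :=
  (0 :: List.replicate U 1000000, List.replicate (U + 1) 1000000)

lemma adjMax_length (l : List ℕ) : ∀ a, (adjMax a l).length = l.length := by
  induction l with
  | nil => intro a; rfl
  | cons b l ih => intro a; simp [adjMax, ih]

lemma adjMin_length (l : List ℕ) : ∀ a, (adjMin a l).length = l.length := by
  induction l with
  | nil => intro a; rfl
  | cons b l ih => intro a; simp [adjMin, ih]

lemma bmax (a b : ℕ) : (bif Nat.ble a b then b else a) = max a b := by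
  rcases Nat.lt_or_ge b a with h | h
  · have : Nat.ble a b = false := by
      rw [Bool.eq_false_iff, ne_eq, Nat.ble_eq]
      omega
    rw [this, cond_false, max_eq_left h.le]
  · have : Nat.ble a b = true := by rw [Nat.ble_eq]; exact h
    rw [this, cond_true, max_eq_right h]

lemma bmin (a b : ℕ) : (bif Nat.ble a b then a else b) = min a b := by
  rcases Nat.lt_or_ge b a with h | h
  · have : Nat.ble a b = false := by
      rw [Bool.eq_false_iff, ne_eq, Nat.ble_eq]
      omega
    rw [this, cond_false, min_eq_right h.le]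
  · have : Nat.ble a b = true := by rw [Nat.ble_eq]; exact h
    rw [this, cond_true, min_eq_left h]

lemma adjMax_getD (l : List ℕ) : ∀ (a k : ℕ), k < l.length →
    (adjMax a l).getD k 0 = max (if k = 0 then a else l.getD (k - 1) 0) (l.getD k 0) := by
  induction l with
  | nil => intro a k hk; simp at hk
  | cons b l ih =>
    intro a k hk
    rcases k with _ | k
    · simp only [adjMax, List.getD_cons_zero, if_true]
      exact bmax a b
    · simp only [adjMax, List.getD_cons_succ]
      rw [ih b k (by simpa using hk)]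
      rcases k with _ | k
      · simp
      · simp

lemma adjMin_getD (l : List ℕ) : ∀ (a k : ℕ), k < l.length →
    (adjMin a l).getD k 0 = min (if k = 0 then a else l.getD (k - 1) 0) (l.getD k 0) := by
  induction l with
  | nil => intro a k hk; simp at hk
  | cons b l ih =>
    intro a k hk
    rcases k with _ | k
    · simp only [adjMin, List.getD_cons_zero, if_true]
      exact bmin a b
    · simp only [adjMin, List.getD_cons_succ]
      rw [ih b k (by simpa using hk)]
      rcases k with _ | k
      · simp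
      · simp

lemma zs_length (c d e : ℕ) (l : List ℕ) : ∀ (i : ℕ) (ms : List ℕ), l.length ≤ ms.length + i →
    (zs c d e i l ms).length = l.length := by
  induction l with
  | nil => intro i ms _; rcases i with _ | i <;> simp [zs]
  | cons a l ih =>
    intro i ms h
    rcases i with _ | i
    · rcases ms with _ | ⟨m, ms⟩
      · simp at h
      · simp only [zs, List.length_cons]
        rw [ih 0 ms (by simpa using h)]
    · simp only [zs, List.length_cons]
      rw [ih i ms (by simp at h; omega)]

lemma zs_getD (c d e : ℕ) (l : List ℕ) : ∀ (i : ℕ) (ms : List ℕ), l.length ≤ ms.length + i →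
    ∀ k < l.length, (zs c d e i l ms).getD k 0 =
      if k < i then l.getD k 0 else l.getD k 0 - (c * ms.getD (k - i) 0 + d) / e := by
  induction l with
  | nil => intro i ms _ k hk; simp at hk
  | cons a l ih =>
    intro i ms h k hk
    rcases i with _ | i
    · rcases ms with _ | ⟨m, ms⟩
      · simp at h
      · rcases k with _ | k
        · simp [zs]
        · simp only [zs, List.getD_cons_succ]
          rw [ih 0 ms (by simpa using h) k (by simpa using hk)]
          simp
    · rcases k with _ | k
      · simp [zs]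
      · simp only [zs, List.getD_cons_succ]
        rw [ih i ms (by simp at h; omega) k (by simpa using hk)]
        have e1 : k + 1 - (i + 1) = k - i := by omega
        rw [e1]
        by_cases hki : k < i
        · rw [if_pos hki, if_pos (by omega)]
        · rw [if_neg hki, if_neg (by omega)]

/-- admissible states -/
structure Gd (U : ℕ) (st : List ℕ × List ℕ) : Prop where
  l1 : st.1.length = U + 1
  l2 : st.2.length = U + 1
  b1 : ∀ k, st.1.getD k 0 ≤ 1000000
  b2 : ∀ k, st.2.getD k 0 ≤ 1000000

/-- lower bounds -/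
noncomputable def loR (st : List ℕ × List ℕ) (k : ℕ) : ℝ := (st.1.getD k 0 : ℝ) / 1000000

/-- upper bounds -/
noncomputable def upR (st : List ℕ × List ℕ) (k : ℕ) : ℝ := (st.2.getD k 0 : ℝ) / 1000000

lemma log_upper {i : ℕ} (hi : 1 ≤ i) :
    Real.log (((i : ℝ) + 1) / i) ≤ (2 * i + 1) / (2 * i * (i + 1)) := by
  have hi0 : (0 : ℝ) < i := by exact_mod_cast hi
  set t := ((i : ℝ) + 1) / i with ht
  have ht0 : 0 < t := by positivity
  have ht1 : 1 ≤ t := by
    rw [ht, le_div_iff₀ hi0]
    linarith
  have h1 : Real.log t ≤ Real.sinh (Real.log t) := Real.self_le_sinh_iff.2 (Real.log_nonneg ht1)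
  rw [Real.sinh_log ht0] at h1
  refine h1.trans (le_of_eq ?_)
  rw [ht]
  field_simp
  ring

lemma log_lower {i : ℕ} (hi : 1 ≤ i) :
    2 / (2 * (i : ℝ) + 1) ≤ Real.log (((i : ℝ) + 1) / i) := by
  have hi0 : (0 : ℝ) < i := by exact_mod_cast hi
  have h1 := Real.le_log_one_add_of_nonneg (x := 1 / (i : ℝ)) (by positivity)
  have e1 : 1 + 1 / (i : ℝ) = ((i : ℝ) + 1) / i := by field_simp
  rw [e1] at h1
  refine le_trans (le_of_eq ?_) h1
  field_simp
  ring

lemma ceil_div (A d : ℕ) (hd : 0 < d) : A ≤ d * ((A + (d - 1)) / d) := by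
  have h := Nat.lt_mul_div_succ (A + (d - 1)) hd
  rw [mul_add, mul_one] at h
  omega

lemma step_gd {U i : ℕ} {st : List ℕ × List ℕ} (h : Gd U st) : Gd U (stepD i st) := by
  obtain ⟨h1, h2, h3, h4⟩ := h
  have e1 : (stepD i st).1.length = U + 1 := by
    show (zs _ _ _ i st.1 (adjMax 0 st.2)).length = U + 1
    rw [zs_length _ _ _ _ _ _ (by rw [adjMax_length]; omega), h1]
  have e2 : (stepD i st).2.length = U + 1 := by
    show (zs _ _ _ i st.2 (adjMin 0 (stepD i st).1)).length = U + 1
    rw [zs_length _ _ _ _ _ _ (by rw [adjMin_length]; omega), h2]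
  refine ⟨e1, e2, fun k => ?_, fun k => ?_⟩
  · by_cases hk : k < st.1.length
    · have : (stepD i st).1.getD k 0 = _ :=
        zs_getD _ _ _ st.1 i (adjMax 0 st.2) (by rw [adjMax_length]; omega) k hk
      rw [this]
      split_ifs
      · exact h3 k
      · exact (Nat.sub_le _ _).trans (h3 k)
    · rw [List.getD_eq_default _ _ (by omega)]
      norm_num
  · by_cases hk : k < st.2.length
    · have : (stepD i st).2.getD k 0 = _ :=
        zs_getD _ _ _ st.2 i (adjMin 0 (stepD i st).1) (by rw [adjMin_length]; omega) k hk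
      rw [this]
      split_ifs
      · exact h4 k
      · exact (Nat.sub_le _ _).trans (h4 k)
    · rw [List.getD_eq_default _ _ (by omega)]
      norm_num

lemma step_h1 {U i : ℕ} {st : List ℕ × List ℕ} (h : Gd U st) :
    ∀ k < i, loR (stepD i st) k ≤ loR st k ∧ upR st k ≤ upR (stepD i st) k := by
  obtain ⟨h1, h2, h3, h4⟩ := h
  intro k hk
  obtain ⟨e1, e2, -, -⟩ := step_gd (i := i) (Gd.mk h1 h2 h3 h4)
  by_cases hkl : k < U + 1
  · constructor
    · have : (stepD i st).1.getD k 0 = _ :=
        zs_getD _ _ _ st.1 i (adjMax 0 st.2) (by rw [adjMax_length]; omega) k (by omega)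
      rw [if_pos hk] at this
      rw [loR, loR, this]
    · have : (stepD i st).2.getD k 0 = _ :=
        zs_getD _ _ _ st.2 i (adjMin 0 (stepD i st).1) (by rw [adjMin_length]; omega) k (by omega)
      rw [if_pos hk] at this
      rw [upR, upR, this]
  · constructor
    · rw [loR, loR, List.getD_eq_default _ _ (by omega), List.getD_eq_default _ _ (by omega)]
    · rw [upR, upR, List.getD_eq_default _ _ (by omega), List.getD_eq_default _ _ (by omega)]

lemma step_h2 {U i : ℕ} (hi : 1 ≤ i) {st : List ℕ × List ℕ} (h : Gd U st) :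
    ∀ k ≤ U, i ≤ k → ∃ M : ℝ, 0 ≤ M ∧ M ≤ 1 ∧ upR st (k - i) ≤ M ∧
      (i < k → upR st (k - i - 1) ≤ M) ∧
      loR (stepD i st) k ≤ max 0 (loR st k - Real.log (((i : ℝ) + 1) / i) * M) := by
  obtain ⟨h1, h2, h3, h4⟩ := h
  intro k hk hik
  have hi0 : (0 : ℝ) < i := by exact_mod_cast hi
  set M0 := (adjMax 0 st.2).getD (k - i) 0 with hM0
  have hM := adjMax_getD st.2 0 (k - i) (by omega)
  rw [← hM0] at hM
  have g1 : st.2.getD (k - i) 0 ≤ M0 := by rw [hM]; exact le_max_right _ _
  have g2 : i < k → st.2.getD (k - i - 1) 0 ≤ M0 := by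
    intro hlt
    rw [hM, if_neg (by omega)]
    exact le_max_left _ _
  have g3 : M0 ≤ 1000000 := by
    rw [hM]
    apply max_le _ (h4 _)
    split_ifs
    · norm_num
    · exact h4 _
  refine ⟨(M0 : ℝ) / 1000000, by positivity, ?_, ?_, ?_, ?_⟩
  · rw [div_le_one (by norm_num)]
    exact_mod_cast g3
  · unfold upR
    apply div_le_div_of_nonneg_right _ (by norm_num)
    exact_mod_cast g1
  · intro hlt
    unfold upR
    apply div_le_div_of_nonneg_right _ (by norm_num)
    exact_mod_cast g2 hlt
  · have hz : (stepD i st).1.getD k 0 = _ :=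
        zs_getD _ _ _ st.1 i (adjMax 0 st.2) (by rw [adjMax_length]; omega) k (by omega)
    rw [if_neg (by omega), ← hM0] at hz
    set Q := ((2 * i + 1) * M0 + (2 * i * (i + 1) - 1)) / (2 * i * (i + 1)) with hQ
    have hd : 0 < 2 * i * (i + 1) := by positivity
    have hQ1 : (2 * i + 1) * M0 ≤ (2 * i * (i + 1)) * Q := ceil_div _ _ hd
    have hQ2 : Real.log (((i : ℝ) + 1) / i) * M0 ≤ Q := by
      have a1 : (2 * (i : ℝ) + 1) * M0 ≤ (2 * i * (i + 1)) * Q := by exact_mod_cast hQ1
      calc Real.log (((i : ℝ) + 1) / i) * M0 ≤ (2 * i + 1) / (2 * i * (i + 1)) * M0 :=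
            mul_le_mul_of_nonneg_right (log_upper hi) (Nat.cast_nonneg _)
        _ = (2 * i + 1) * M0 / (2 * i * (i + 1)) := by ring
        _ ≤ Q := by
            rw [div_le_iff₀ (by positivity)]
            linarith
    rw [le_max_iff]
    unfold loR
    rw [hz]
    rcases Nat.lt_or_ge (st.1.getD k 0) Q with hlt | hge
    · left
      rw [Nat.sub_eq_zero_of_le hlt.le]
      simp
    · right
      rw [Nat.cast_sub hge]
      have : Real.log (((i : ℝ) + 1) / i) * ((M0 : ℝ) / 1000000) =
        Real.log (((i : ℝ) + 1) / i) * M0 / 1000000 := by ring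
      rw [this, ← sub_div]
      apply div_le_div_of_nonneg_right _ (by norm_num)
      linarith

lemma step_h3 {U i : ℕ} (hi : 1 ≤ i) {st : List ℕ × List ℕ} (h : Gd U st) :
    ∀ k ≤ U, i ≤ k → ∃ m : ℝ, 0 ≤ m ∧ m ≤ 1 ∧
      (m = 0 ∨ (i < k ∧ m ≤ loR (stepD i st) (k - i) ∧ m ≤ loR (stepD i st) (k - i - 1))) ∧
      upR st k - Real.log (((i : ℝ) + 1) / i) * m ≤ upR (stepD i st) k := by
  have hg := step_gd (i := i) h
  obtain ⟨h1, h2, h3, h4⟩ := h
  obtain ⟨e1, e2, e3, -⟩ := hg
  intro k hk hik
  have hi0 : (0 : ℝ) < i := by exact_mod_cast hi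
  set m0 := (adjMin 0 (stepD i st).1).getD (k - i) 0 with hm0
  have hm := adjMin_getD (stepD i st).1 0 (k - i) (by omega)
  rw [← hm0] at hm
  refine ⟨(m0 : ℝ) / 1000000, by positivity, ?_, ?_, ?_⟩
  · rw [div_le_one (by norm_num)]
    have : m0 ≤ 1000000 := by
      rw [hm]
      exact (min_le_right _ _).trans (e3 _)
    exact_mod_cast this
  · rcases Nat.lt_or_ge i k with hlt | hge
    · right
      refine ⟨hlt, ?_, ?_⟩
      · unfold loR
        apply div_le_div_of_nonneg_right _ (by norm_num)
        have : m0 ≤ (stepD i st).1.getD (k - i) 0 := by rw [hm]; exact min_le_right _ _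
        exact_mod_cast this
      · unfold loR
        apply div_le_div_of_nonneg_right _ (by norm_num)
        have : m0 ≤ (stepD i st).1.getD (k - i - 1) 0 := by
          rw [hm, if_neg (by omega)]
          exact min_le_left _ _
        exact_mod_cast this
    · left
      have : m0 = 0 := by
        rw [hm, if_pos (by omega)]
        simp
      rw [this]
      simp
  · have hz : (stepD i st).2.getD k 0 = _ :=
        zs_getD _ _ _ st.2 i (adjMin 0 (stepD i st).1) (by rw [adjMin_length]; omega) k (by omega)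
    rw [if_neg (by omega), ← hm0] at hz
    set Q := (2 * m0 + 0) / (2 * i + 1) with hQ
    have hQ1 : (2 * i + 1) * Q ≤ 2 * m0 := by
      have := Nat.div_mul_le_self (2 * m0 + 0) (2 * i + 1)
      rw [← hQ, mul_comm] at this
      omega
    have hQ2 : (Q : ℝ) ≤ Real.log (((i : ℝ) + 1) / i) * m0 := by
      have a1 : (2 * (i : ℝ) + 1) * Q ≤ 2 * m0 := by exact_mod_cast hQ1
      calc (Q : ℝ) ≤ 2 * m0 / (2 * i + 1) := by
            rw [le_div_iff₀ (by positivity)]
            linarith
        _ = 2 / (2 * (i : ℝ) + 1) * m0 := by ring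
        _ ≤ _ := mul_le_mul_of_nonneg_right (log_lower hi) (Nat.cast_nonneg _)
    unfold upR
    rw [hz]
    have a2 : (st.2.getD k 0 : ℝ) - Q ≤ ((st.2.getD k 0 - Q : ℕ) : ℝ) := by
      have : st.2.getD k 0 ≤ (st.2.getD k 0 - Q) + Q := by omega
      have a3 : (st.2.getD k 0 : ℝ) ≤ ((st.2.getD k 0 - Q : ℕ) : ℝ) + Q := by exact_mod_cast this
      linarith
    have : Real.log (((i : ℝ) + 1) / i) * ((m0 : ℝ) / 1000000) =
      Real.log (((i : ℝ) + 1) / i) * m0 / 1000000 := by ring
    rw [this, ← sub_div]
    apply div_le_div_of_nonneg_right _ (by norm_num)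
    linarith

/-- the bounds given by the recursion -/
theorem inv_run {z : ℝ} {N U : ℕ} {μ : ℝ} (hz : 1 < z) (hN : 0 < N) (hμ0 : 0 ≤ μ) (hμ1 : μ ≤ 1)
    (C : ℕ → Finset ℕ) : ∀ (I : List ℕ) (P : Finset ℕ) (st : List ℕ × List ℕ) (e : ℝ),
    (∀ i ∈ I, 1 ≤ i) →
    (∀ i ∈ I, ∀ p ∈ C i, p.Prime ∧ z ^ ((i : ℝ) / N) < p ∧ (p : ℝ) ≤ z ^ (((i : ℝ) + 1) / N)) →
    (∀ i ∈ I, |∑ p ∈ C i, 1 / (p : ℝ) - Real.log (((i : ℝ) + 1) / i)| ≤ μ) →
    (∀ p ∈ P, p.Prime) → (∀ i ∈ I, Disjoint P (C i)) →
    I.Pairwise (fun i j => Disjoint (C i) (C j)) → Gd U st → μ ≤ e →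
    Inv z N U P (loR st) (upR st) e →
    Inv z N U (P ∪ I.toFinset.biUnion C) (loR (runD I st)) (upR (runD I st))
      (10 ^ I.length * e) := by
  intro I
  induction I with
  | nil =>
    intro P st e _ _ _ _ _ _ _ _ h
    simpa [runD] using h
  | cons i I ih =>
    intro P st e hI hC hw hP hd hpw hg hμe h
    have he : 0 ≤ e := hμ0.trans hμe
    rw [List.pairwise_cons] at hpw
    have hi : 1 ≤ i := hI i List.mem_cons_self
    have hi0 : (0 : ℝ) < i := by exact_mod_cast hi
    have hw0 : 0 ≤ Real.log (((i : ℝ) + 1) / i) := by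
      refine le_trans ?_ (log_lower hi)
      positivity
    have hw1 : Real.log (((i : ℝ) + 1) / i) ≤ 1 := by
      refine (log_upper hi).trans ?_
      rw [div_le_one (by positivity)]
      have : (1 : ℝ) ≤ i := by exact_mod_cast hi
      nlinarith
    have hstep := inv_step hz hN hP (hC i List.mem_cons_self) (hd i List.mem_cons_self) he hμ0 hμ1
      hw0 hw1 (hw i List.mem_cons_self) (step_h1 hg) (step_h2 hi hg) (step_h3 hi hg) h
    have hstep' := hstep.mono (by linarith) (show 7 * e + 3 * μ ≤ 10 * e by linarith)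
    have hfin := ih (P ∪ C i) (stepD i st) (10 * e) (fun j hj => hI j (List.mem_cons_of_mem _ hj))
      (fun j hj => hC j (List.mem_cons_of_mem _ hj)) (fun j hj => hw j (List.mem_cons_of_mem _ hj))
      (by
        intro p hp
        rcases mem_union.1 hp with hp | hp
        · exact hP p hp
        · exact (hC i List.mem_cons_self p hp).1)
      (by
        intro j hj
        rw [disjoint_union_left]
        exact ⟨hd j (List.mem_cons_of_mem _ hj), hpw.1 j hj⟩)
      hpw.2 (step_gd hg) (by linarith) hstep'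
    have e1 : (i :: I).toFinset.biUnion C = C i ∪ I.toFinset.biUnion C := by
      rw [List.toFinset_cons, Finset.biUnion_insert]
    rw [e1, ← union_assoc, List.length_cons, pow_succ, mul_assoc]
    exact hfin

lemma init_gd (U : ℕ) : Gd U (initD U) := by
  refine ⟨by simp [initD], by simp [initD], fun k => ?_, fun k => ?_⟩
  · rcases k with _ | k
    · simp [initD]
    · simp only [initD, List.getD_cons_succ]
      by_cases hk : k < U
      · rw [List.getD_replicate _ hk]
      · rw [List.getD_eq_default _ _ (by simpa using hk)]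
        norm_num
  · simp only [initD]
    by_cases hk : k < U + 1
    · rw [List.getD_replicate _ hk]
    · rw [List.getD_eq_default _ _ (by simpa using hk)]
      norm_num

/-- no primes -/
lemma init_inv {z : ℝ} {N U : ℕ} {e : ℝ} (hz : 1 < z) (hN : 0 < N) (he : 0 ≤ e)
    (hze : 1 / z ^ (1 / (N : ℝ)) ≤ e) :
    Inv z N U ∅ (loR (initD U)) (upR (initD U)) e := by
  intro k hk y hy0 hy1
  have hz0 : 0 < z := by linarith
  have hN0 : (0 : ℝ) < N := by exact_mod_cast hN
  have hypos : 0 < y := lt_of_lt_of_le (Real.rpow_pos_of_pos hz0 _) hy0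
  have h1 : (⌊y⌋₊ : ℝ) ≤ y := Nat.floor_le hypos.le
  have h2 : y < ⌊y⌋₊ + 1 := Nat.lt_floor_add_one y
  rw [V_empty]
  constructor
  · rcases k with _ | k
    · have : loR (initD U) 0 = 0 := by simp [loR, initD]
      rw [this]
      refine le_trans ?_ (Nat.cast_nonneg _)
      apply mul_nonpos_of_nonpos_of_nonneg _ hypos.le
      linarith
    · have : loR (initD U) (k + 1) = 1 := by
        unfold loR
        simp only [initD, List.getD_cons_succ]
        rw [List.getD_replicate _ (by omega)]
        norm_num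
      rw [this]
      have h3 : 1 ≤ e * y := by
        have h4 : z ^ (1 / (N : ℝ)) ≤ y := by
          refine le_trans (Real.rpow_le_rpow_of_exponent_le hz.le ?_) hy0
          apply div_le_div_of_nonneg_right _ hN0.le
          push_cast
          have : (0 : ℝ) ≤ k := Nat.cast_nonneg _
          linarith
        have h5 : 0 < z ^ (1 / (N : ℝ)) := Real.rpow_pos_of_pos hz0 _
        calc (1 : ℝ) = 1 / z ^ (1 / (N : ℝ)) * z ^ (1 / (N : ℝ)) := by field_simp
          _ ≤ e * y := mul_le_mul hze h4 h5.le he
      linarith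
  · have : upR (initD U) k = 1 := by
      unfold upR
      simp only [initD]
      rw [List.getD_replicate _ (by omega)]
      norm_num
    rw [this]
    nlinarith

end Pool.Agent.J6H13.MF
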