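import Pool.Agent.N610.MS.Stm

set_option autoImplicit false

/-!
# Sieving by cells of primes: lower and upper bounds for the number of the unsieved integers,
when one cell of primes is added
-/

namespace Pool.Agent.J6H13.MF

open Finset
open Pool.Agent.N610.MS

lemma V_empty (Y : ℕ) : V ∅ Y = Y := by simp [V]

lemma V_zero (P : Finset ℕ) : V P 0 = 0 := by simp [V]

/-- union bound -/
lemma V_union_lower (P C : Finset ℕ) (hC : ∀ p ∈ C, p.Prime) (Y : ℕ) :
    V P Y ≤ V (P ∪ C) Y + ∑ p ∈ C, V P (Y / p) := by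
  classical
  have hsub : (Icc 1 Y).filter (fun h => ∀ p ∈ P, ¬ p ∣ h) ⊆
      (Icc 1 Y).filter (fun h => ∀ p ∈ P ∪ C, ¬ p ∣ h) ∪
        C.biUnion (fun p =>
          ((Icc 1 (Y / p)).filter (fun h => ∀ q ∈ P, ¬ q ∣ h)).image (fun m => p * m)) := by
    intro h hh
    rw [mem_filter, mem_Icc] at hh
    obtain ⟨⟨h1, h2⟩, h3⟩ := hh
    by_cases hc : ∃ p ∈ C, p ∣ h
    · obtain ⟨p, hp, m, rfl⟩ := hc
      rw [mem_union]
      right
      rw [mem_biUnion]
      refine ⟨p, hp, mem_image.2 ⟨m, ?_, rfl⟩⟩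
      rw [mem_filter, mem_Icc]
      refine ⟨⟨Nat.pos_of_ne_zero (by rintro rfl; simp at h1), ?_⟩,
        fun q hq hqm => h3 q hq (hqm.mul_left p)⟩
      rw [Nat.le_div_iff_mul_le (hC p hp).pos, mul_comm]
      exact h2
    · push Not at hc
      rw [mem_union]
      left
      rw [mem_filter, mem_Icc]
      refine ⟨⟨h1, h2⟩, fun p hp => ?_⟩
      rcases mem_union.1 hp with hp | hp
      · exact h3 p hp
      · exact hc p hp
  refine (card_le_card hsub).trans ((card_union_le _ _).trans ?_)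
  refine Nat.add_le_add_left ?_ _
  exact card_biUnion_le.trans (sum_le_sum fun p _ => card_image_le)

/-- the unsieved integers and their multiples by the new primes -/
lemma V_union_upper (P C : Finset ℕ) (hP : ∀ p ∈ P, p.Prime) (hC : ∀ p ∈ C, p.Prime)
    (hd : Disjoint P C) (Y : ℕ) :
    V (P ∪ C) Y + ∑ p ∈ C, V (P ∪ C) (Y / p) ≤ V P Y := by
  classical
  set A : Finset ℕ := (Icc 1 Y).filter (fun h => ∀ p ∈ P ∪ C, ¬ p ∣ h) with hA
  set B : ℕ → Finset ℕ := fun p =>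
    ((Icc 1 (Y / p)).filter (fun h => ∀ q ∈ P ∪ C, ¬ q ∣ h)).image (fun m => p * m) with hB
  have hBcard : ∀ p ∈ C, (B p).card = V (P ∪ C) (Y / p) := by
    intro p hp
    rw [hB]
    show (Finset.image _ _).card = _
    rw [card_image_of_injective]
    · rfl
    · intro a b hab
      exact Nat.eq_of_mul_eq_mul_left (hC p hp).pos hab
  have hdB : ∀ p ∈ C, ∀ q ∈ C, p ≠ q → Disjoint (B p) (B q) := by
    intro p hp q hq hpq
    rw [disjoint_left]
    intro h h1 h2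
    obtain ⟨m, hm, rfl⟩ := mem_image.1 h1
    obtain ⟨m', hm', he⟩ := mem_image.1 h2
    rw [mem_filter] at hm
    have h3 : q ∣ p * m := ⟨m', he.symm⟩
    rcases (hC q hq).dvd_mul.1 h3 with h4 | h4
    · exact hpq ((Nat.prime_dvd_prime_iff_eq (hC q hq) (hC p hp)).1 h4).symm
    · exact hm.2 q (mem_union_right _ hq) h4
  have hdA : Disjoint A (C.biUnion B) := by
    rw [disjoint_left]
    intro h h1 h2
    obtain ⟨p, hp, h3⟩ := mem_biUnion.1 h2
    obtain ⟨m, hm, rfl⟩ := mem_image.1 h3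
    rw [hA, mem_filter] at h1
    exact h1.2 p (mem_union_right _ hp) (dvd_mul_right p m)
  have hsub : A ∪ C.biUnion B ⊆ (Icc 1 Y).filter (fun h => ∀ p ∈ P, ¬ p ∣ h) := by
    intro h hh
    rcases mem_union.1 hh with hh | hh
    · rw [hA, mem_filter] at hh
      rw [mem_filter]
      exact ⟨hh.1, fun p hp => hh.2 p (mem_union_left _ hp)⟩
    · obtain ⟨p, hp, h3⟩ := mem_biUnion.1 hh
      obtain ⟨m, hm, rfl⟩ := mem_image.1 h3
      rw [mem_filter, mem_Icc] at hm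
      rw [mem_filter, mem_Icc]
      refine ⟨⟨Nat.mul_pos (hC p hp).pos hm.1.1, ?_⟩, fun q hq hqd => ?_⟩
      · have := (Nat.le_div_iff_mul_le (hC p hp).pos).1 hm.1.2
        rw [mul_comm]
        exact this
      · rcases (hP q hq).dvd_mul.1 hqd with h4 | h4
        · have h5 := (Nat.prime_dvd_prime_iff_eq (hP q hq) (hC p hp)).1 h4
          rw [h5] at hq
          exact (disjoint_left.1 hd hq hp)
        · exact hm.2 q (mem_union_left _ hq) h4
  have h1 := card_le_card hsub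
  rw [card_union_of_disjoint hdA, card_biUnion hdB, sum_congr rfl hBcard] at h1
  exact h1

/-- bounds on the cells `[z ^ (k / N), z ^ ((k + 1) / N)]` -/
def Inv (z : ℝ) (N U : ℕ) (P : Finset ℕ) (lo up : ℕ → ℝ) (e : ℝ) : Prop :=
  ∀ k ≤ U, ∀ y : ℝ, z ^ ((k : ℝ) / N) ≤ y → y ≤ z ^ (((k : ℝ) + 1) / N) →
    (lo k - e) * y ≤ V P ⌊y⌋₊ ∧ (V P ⌊y⌋₊ : ℝ) ≤ (up k + e) * y

lemma V_floor_div (P : Finset ℕ) (y : ℝ) (p : ℕ) : V P (⌊y⌋₊ / p) = V P ⌊y / p⌋₊ := by
  rw [Nat.floor_div_natCast]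

/-- where `y / p` lies -/
lemma cell_div {z : ℝ} {N i k : ℕ} (hz : 1 < z) (hN : 0 < N) (hik : i ≤ k) {y p : ℝ} (hp : 0 < p)
    (hy0 : z ^ ((k : ℝ) / N) ≤ y) (hy1 : y ≤ z ^ (((k : ℝ) + 1) / N))
    (hp0 : z ^ ((i : ℝ) / N) < p) (hp1 : p ≤ z ^ (((i : ℝ) + 1) / N)) :
    (y / p < 1 ∧ i = k) ∨ (z ^ (((k - i : ℕ) : ℝ) / N) ≤ y / p ∧ y / p ≤ z ^ ((((k - i : ℕ) : ℝ) + 1) / N)) ∨
      (i < k ∧ z ^ (((k - i - 1 : ℕ) : ℝ) / N) ≤ y / p ∧
        y / p ≤ z ^ ((((k - i - 1 : ℕ) : ℝ) + 1) / N)) := by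
  have hz0 : 0 < z := by linarith
  have hN0 : (0 : ℝ) < N := by exact_mod_cast hN
  have hup : y / p ≤ z ^ (((k : ℝ) - i + 1) / N) := by
    rw [div_le_iff₀ hp]
    calc y ≤ z ^ (((k : ℝ) + 1) / N) := hy1
      _ = z ^ (((k : ℝ) - i + 1) / N) * z ^ ((i : ℝ) / N) := by
          rw [← Real.rpow_add hz0]
          congr 1
          ring
      _ ≤ z ^ (((k : ℝ) - i + 1) / N) * p :=
          mul_le_mul_of_nonneg_left hp0.le (Real.rpow_nonneg hz0.le _)
  have hlo : z ^ (((k : ℝ) - i - 1) / N) ≤ y / p := by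
    rw [le_div_iff₀ hp]
    calc z ^ (((k : ℝ) - i - 1) / N) * p ≤ z ^ (((k : ℝ) - i - 1) / N) * z ^ (((i : ℝ) + 1) / N) :=
          mul_le_mul_of_nonneg_left hp1 (Real.rpow_nonneg hz0.le _)
      _ = z ^ ((k : ℝ) / N) := by
          rw [← Real.rpow_add hz0]
          congr 1
          ring
      _ ≤ y := hy0
  have e1 : ((k - i : ℕ) : ℝ) = (k : ℝ) - i := by push_cast [Nat.cast_sub hik]; ring
  by_cases h1 : z ^ (((k - i : ℕ) : ℝ) / N) ≤ y / p
  · right; left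
    refine ⟨h1, ?_⟩
    rw [e1]
    exact hup
  · rw [not_le] at h1
    rcases Nat.lt_or_ge i k with h2 | h2
    · right; right
      have e2 : ((k - i - 1 : ℕ) : ℝ) = (k : ℝ) - i - 1 := by
        rw [Nat.cast_sub (by omega : 1 ≤ k - i), e1]
        push_cast; ring
      refine ⟨h2, ?_, ?_⟩
      · rw [e2]; exact hlo
      · rw [e2, show (k : ℝ) - i - 1 + 1 = ((k - i : ℕ) : ℝ) by rw [e1]; ring]
        exact h1.le
    · left
      have h3 : i = k := le_antisymm hik h2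
      refine ⟨?_, h3⟩
      rw [h3] at h1
      simpa using h1

/-- adding a cell of primes -/
lemma inv_step {z : ℝ} {N U i : ℕ} {P C : Finset ℕ} {lo up lo' up' : ℕ → ℝ} {e μ w : ℝ}
    (hz : 1 < z) (hN : 0 < N)
    (hP : ∀ p ∈ P, p.Prime)
    (hC : ∀ p ∈ C, p.Prime ∧ z ^ ((i : ℝ) / N) < p ∧ (p : ℝ) ≤ z ^ (((i : ℝ) + 1) / N))
    (hd : Disjoint P C) (he : 0 ≤ e) (hμ : 0 ≤ μ) (hμ1 : μ ≤ 1)
    (hw0 : 0 ≤ w) (hw1 : w ≤ 1) (hw : |∑ p ∈ C, 1 / (p : ℝ) - w| ≤ μ)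
    (h1 : ∀ k < i, lo' k ≤ lo k ∧ up k ≤ up' k)
    (h2 : ∀ k ≤ U, i ≤ k → ∃ M : ℝ, 0 ≤ M ∧ M ≤ 1 ∧ up (k - i) ≤ M ∧
      (i < k → up (k - i - 1) ≤ M) ∧ lo' k ≤ max 0 (lo k - w * M))
    (h3 : ∀ k ≤ U, i ≤ k → ∃ m : ℝ, 0 ≤ m ∧ m ≤ 1 ∧
      (m = 0 ∨ (i < k ∧ m ≤ lo' (k - i) ∧ m ≤ lo' (k - i - 1))) ∧ up k - w * m ≤ up' k)
    (h : Inv z N U P lo up e) :
    Inv z N U (P ∪ C) lo' up' (7 * e + 3 * μ) := by
  have hz0 : 0 < z := by linarith
  have hN0 : (0 : ℝ) < N := by exact_mod_cast hN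
  have hCp : ∀ p ∈ C, p.Prime := fun p hp => (hC p hp).1
  rw [abs_le] at hw
  set W := ∑ p ∈ C, 1 / (p : ℝ) with hW
  have hW0 : 0 ≤ W := sum_nonneg fun p _ => by positivity
  -- small `k`
  have hsmall : ∀ k < i, ∀ y : ℝ, y ≤ z ^ (((k : ℝ) + 1) / N) → 0 ≤ y → ∀ p ∈ C, ⌊y / p⌋₊ = 0 := by
    intro k hk y hy hy0 p hp
    obtain ⟨g1, g2, g3⟩ := hC p hp
    rw [Nat.floor_eq_zero, div_lt_one (by exact_mod_cast g1.pos)]
    refine lt_of_le_of_lt hy (lt_of_le_of_lt ?_ g2)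
    apply Real.rpow_le_rpow_of_exponent_le hz.le
    apply div_le_div_of_nonneg_right _ hN0.le
    exact_mod_cast hk
  -- lower bounds
  have hlow : ∀ k ≤ U, ∀ y : ℝ, z ^ ((k : ℝ) / N) ≤ y → y ≤ z ^ (((k : ℝ) + 1) / N) →
      (lo' k - (3 * e + μ)) * y ≤ V (P ∪ C) ⌊y⌋₊ := by
    intro k hk y hy0 hy1
    have hypos : 0 < y := lt_of_lt_of_le (Real.rpow_pos_of_pos hz0 _) hy0
    obtain ⟨a1, a2⟩ := h k hk y hy0 hy1
    have a3 := V_union_lower P C hCp ⌊y⌋₊
    have a4 : (V P ⌊y⌋₊ : ℝ) ≤ V (P ∪ C) ⌊y⌋₊ + ∑ p ∈ C, (V P ⌊y / p⌋₊ : ℝ) := by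
      have : (V P ⌊y⌋₊ : ℝ) ≤ V (P ∪ C) ⌊y⌋₊ + ∑ p ∈ C, (V P (⌊y⌋₊ / p) : ℝ) := by
        exact_mod_cast a3
      simpa only [V_floor_div] using this
    rcases Nat.lt_or_ge k i with hki | hki
    · have a5 : ∑ p ∈ C, (V P ⌊y / p⌋₊ : ℝ) = 0 := by
        refine sum_eq_zero fun p hp => ?_
        rw [hsmall k hki y hy1 hypos.le p hp, V_zero]
        simp
      rw [a5, add_zero] at a4
      refine le_trans ?_ (a1.trans a4)
      apply mul_le_mul_of_nonneg_right _ hypos.le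
      linarith [(h1 k hki).1]
    · obtain ⟨M, hM0, hM1, hMa, hMb, hMc⟩ := h2 k hk hki
      have a5 : ∀ p ∈ C, (V P ⌊y / p⌋₊ : ℝ) ≤ (M + e) * (y * (1 / (p : ℝ))) := by
        intro p hp
        obtain ⟨g1, g2, g3⟩ := hC p hp
        have hp0 : (0 : ℝ) < p := by exact_mod_cast g1.pos
        rw [show y * (1 / (p : ℝ)) = y / p by ring]
        have hyp : 0 < y / p := by positivity
        rcases cell_div hz hN hki hp0 hy0 hy1 g2 g3 with b1 | b1 | b1
        · rw [(Nat.floor_eq_zero).2 b1.1, V_zero]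
          simp only [Nat.cast_zero]
          positivity
        · refine ((h (k - i) (by omega) _ b1.1 b1.2).2).trans ?_
          apply mul_le_mul_of_nonneg_right _ hyp.le
          linarith
        · refine ((h (k - i - 1) (by omega) _ b1.2.1 b1.2.2).2).trans ?_
          apply mul_le_mul_of_nonneg_right _ hyp.le
          linarith [hMb b1.1]
      have a6 : ∑ p ∈ C, (V P ⌊y / p⌋₊ : ℝ) ≤ (M + e) * y * W := by
        refine (sum_le_sum a5).trans (le_of_eq ?_)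
        rw [hW, mul_sum]
        refine sum_congr rfl fun p _ => by ring
      rcases le_max_iff.1 hMc with c1 | c1
      · have : (0 : ℝ) ≤ V (P ∪ C) ⌊y⌋₊ := Nat.cast_nonneg _
        refine le_trans ?_ this
        apply mul_nonpos_of_nonpos_of_nonneg _ hypos.le
        linarith
      · have c2 : (M + e) * y * W ≤ (w * M + μ + 2 * e) * y := by
          have c3 : (M + e) * W ≤ w * M + μ + 2 * e := by
            have c4 : (M + e) * W ≤ (M + e) * (w + μ) :=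
              mul_le_mul_of_nonneg_left (by linarith) (by linarith)
            nlinarith
          calc (M + e) * y * W = (M + e) * W * y := by ring
            _ ≤ _ := mul_le_mul_of_nonneg_right c3 hypos.le
        have c3 : (lo' k - (3 * e + μ)) * y ≤ (lo k - e) * y - (w * M + μ + 2 * e) * y := by
          rw [← sub_mul]
          apply mul_le_mul_of_nonneg_right _ hypos.le
          linarith
        linarith
  intro k hk y hy0 hy1
  have hypos : 0 < y := lt_of_lt_of_le (Real.rpow_pos_of_pos hz0 _) hy0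
  refine ⟨?_, ?_⟩
  · refine le_trans ?_ (hlow k hk y hy0 hy1)
    apply mul_le_mul_of_nonneg_right _ hypos.le
    linarith
  · obtain ⟨a1, a2⟩ := h k hk y hy0 hy1
    have a3 := V_union_upper P C hP hCp hd ⌊y⌋₊
    have a4 : (V (P ∪ C) ⌊y⌋₊ : ℝ) + ∑ p ∈ C, (V (P ∪ C) ⌊y / p⌋₊ : ℝ) ≤ V P ⌊y⌋₊ := by
      have : (V (P ∪ C) ⌊y⌋₊ : ℝ) + ∑ p ∈ C, (V (P ∪ C) (⌊y⌋₊ / p) : ℝ) ≤ V P ⌊y⌋₊ := by
        exact_mod_cast a3
      simpa only [V_floor_div] using this
    rcases Nat.lt_or_ge k i with hki | hki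
    · have a5 : (0 : ℝ) ≤ ∑ p ∈ C, (V (P ∪ C) ⌊y / p⌋₊ : ℝ) := sum_nonneg fun p _ => Nat.cast_nonneg _
      have a6 : (V (P ∪ C) ⌊y⌋₊ : ℝ) ≤ (up k + e) * y := by linarith
      refine a6.trans ?_
      apply mul_le_mul_of_nonneg_right _ hypos.le
      linarith [(h1 k hki).2]
    · obtain ⟨m, hm0, hm1, hma, hmb⟩ := h3 k hk hki
      have a5 : ∀ p ∈ C, (m - (3 * e + μ)) * (y * (1 / (p : ℝ))) ≤ (V (P ∪ C) ⌊y / p⌋₊ : ℝ) := by
        intro p hp
        obtain ⟨g1, g2, g3⟩ := hC p hp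
        have hp0 : (0 : ℝ) < p := by exact_mod_cast g1.pos
        rw [show y * (1 / (p : ℝ)) = y / p by ring]
        have hyp : 0 < y / p := by positivity
        rcases hma with hma | ⟨b0, b2, b3⟩
        · have : (0 : ℝ) ≤ V (P ∪ C) ⌊y / p⌋₊ := Nat.cast_nonneg _
          refine le_trans ?_ this
          apply mul_nonpos_of_nonpos_of_nonneg _ hyp.le
          linarith
        · rcases cell_div hz hN hki hp0 hy0 hy1 g2 g3 with b1 | b1 | b1
          · exfalso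
            omega
          · refine le_trans ?_ (hlow (k - i) (by omega) _ b1.1 b1.2)
            apply mul_le_mul_of_nonneg_right _ hyp.le
            linarith
          · refine le_trans ?_ (hlow (k - i - 1) (by omega) _ b1.2.1 b1.2.2)
            apply mul_le_mul_of_nonneg_right _ hyp.le
            linarith
      have a6 : (m - (3 * e + μ)) * y * W ≤ ∑ p ∈ C, (V (P ∪ C) ⌊y / p⌋₊ : ℝ) := by
        refine le_trans (le_of_eq ?_) (sum_le_sum a5)
        rw [hW, mul_sum]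
        refine sum_congr rfl fun p _ => by ring
      have c2 : (w * m - μ - 2 * (3 * e + μ)) * y ≤ (m - (3 * e + μ)) * y * W := by
        have c3 : w * m - μ - 2 * (3 * e + μ) ≤ (m - (3 * e + μ)) * W := by
          have c4 : m * (w - μ) ≤ m * W := mul_le_mul_of_nonneg_left (by linarith) hm0
          have c5 : (3 * e + μ) * W ≤ (3 * e + μ) * 2 :=
            mul_le_mul_of_nonneg_left (by linarith) (by linarith)
          nlinarith
        calc (w * m - μ - 2 * (3 * e + μ)) * y ≤ (m - (3 * e + μ)) * W * y :=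
              mul_le_mul_of_nonneg_right c3 hypos.le
          _ = _ := by ring
      have c3 : (up k + e) * y - (w * m - μ - 2 * (3 * e + μ)) * y ≤ (up' k + (7 * e + 3 * μ)) * y := by
        rw [← sub_mul]
        apply mul_le_mul_of_nonneg_right _ hypos.le
        linarith
      linarith

lemma Inv.mono {z : ℝ} {N U : ℕ} {P : Finset ℕ} {lo up : ℕ → ℝ} {e e' : ℝ} (hz : 0 < z)
    (h : Inv z N U P lo up e) (hee : e ≤ e') : Inv z N U P lo up e' := by
  intro k hk y hy0 hy1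
  obtain ⟨h1, h2⟩ := h k hk y hy0 hy1
  have hypos : 0 < y := lt_of_lt_of_le (Real.rpow_pos_of_pos hz _) hy0
  constructor
  · refine le_trans ?_ h1
    apply mul_le_mul_of_nonneg_right _ hypos.le
    linarith
  · refine h2.trans ?_
    apply mul_le_mul_of_nonneg_right _ hypos.le
    linarith

end Pool.Agent.J6H13.MF
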