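import Pool.Agent.J6H13.MF.Cert

set_option autoImplicit false

/-!
# The recursion for the bounds in a form which the kernel evaluates quickly
-/

namespace Pool.Agent.J6H13.MF

/-- `zs` on maxima of adjacent entries -/
noncomputable def goLo (c d e : ℕ) (l : List ℕ) : List ℕ → ℕ → List ℕ :=
  @List.rec ℕ (fun _ => List ℕ → ℕ → List ℕ) (fun _ _ => [])
    (fun a _ ih ms prev => @List.rec ℕ (fun _ => List ℕ) []
      (fun b ms' _ => (a - (c * (bif Nat.ble prev b then b else prev) + d) / e) :: ih ms' b) ms) l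

/-- `zs` on minima of adjacent entries -/
noncomputable def goUp (c d e : ℕ) (l : List ℕ) : List ℕ → ℕ → List ℕ :=
  @List.rec ℕ (fun _ => List ℕ → ℕ → List ℕ) (fun _ _ => [])
    (fun a _ ih ms prev => @List.rec ℕ (fun _ => List ℕ) []
      (fun b ms' _ => (a - (c * (bif Nat.ble prev b then prev else b) + d) / e) :: ih ms' b) ms) l

/-- the first `i` entries do not change -/
noncomputable def skip (f : List ℕ → List ℕ) (i : ℕ) : List ℕ → List ℕ :=
  @Nat.rec (fun _ => List ℕ → List ℕ) f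
    (fun _ ih l => @List.rec ℕ (fun _ => List ℕ) [] (fun a l' _ => a :: ih l') l) i

/-- one cell -/
noncomputable def stepF (i : ℕ) (lo up : List ℕ) (k : List ℕ → List ℕ → ℕ) : ℕ :=
  (fun lo' => k lo' (skip (fun l => goUp 2 0 (2 * i + 1) l lo' 0) i up))
    (skip (fun l => goLo (2 * i + 1) (2 * i * (i + 1) - 1) (2 * i * (i + 1)) l up 0) i lo)

/-- all cells -/
noncomputable def runF (fin : List ℕ → List ℕ → ℕ) (m : ℕ) : ℕ → List ℕ → List ℕ → ℕ :=
  @Nat.rec (fun _ => ℕ → List ℕ → List ℕ → ℕ) (fun _ lo up => fin lo up)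
    (fun m ih i0 lo up => stepF (i0 + m) lo up (fun lo' up' => ih i0 lo' up')) m

/-- `[i0 + m - 1, ..., i0]` -/
def desc (i0 : ℕ) : ℕ → List ℕ
  | 0 => []
  | m + 1 => (i0 + m) :: desc i0 m

/-- the lower bound -/
noncomputable def loF (N i0 U : ℕ) : ℕ :=
  runF (fun lo _ => lo.getD U 0) (N - i0) i0 (0 :: List.replicate U 1000000)
    (List.replicate (U + 1) 1000000)

/-- the upper bound -/
noncomputable def upF (N i0 U : ℕ) : ℕ :=
  runF (fun _ up => up.getD U 0) (N - i0) i0 (0 :: List.replicate U 1000000)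
    (List.replicate (U + 1) 1000000)

lemma goLo_eq (c d e : ℕ) (l : List ℕ) : ∀ (ms : List ℕ) (prev : ℕ),
    goLo c d e l ms prev = zs c d e 0 l (adjMax prev ms) := by
  induction l with
  | nil => intro ms prev; rcases ms with _ | ⟨b, ms⟩ <;> rfl
  | cons a l ih =>
    intro ms prev
    rcases ms with _ | ⟨b, ms⟩
    · rfl
    · show (a - (c * (bif Nat.ble prev b then b else prev) + d) / e) :: goLo c d e l ms b = _
      rw [ih]
      rfl

lemma goUp_eq (c d e : ℕ) (l : List ℕ) : ∀ (ms : List ℕ) (prev : ℕ),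
    goUp c d e l ms prev = zs c d e 0 l (adjMin prev ms) := by
  induction l with
  | nil => intro ms prev; rcases ms with _ | ⟨b, ms⟩ <;> rfl
  | cons a l ih =>
    intro ms prev
    rcases ms with _ | ⟨b, ms⟩
    · rfl
    · show (a - (c * (bif Nat.ble prev b then prev else b) + d) / e) :: goUp c d e l ms b = _
      rw [ih]
      rfl

lemma skip_eq (c d e : ℕ) (f : List ℕ → List ℕ) (ms : List ℕ)
    (hf : ∀ l, f l = zs c d e 0 l ms) : ∀ (i : ℕ) (l : List ℕ), skip f i l = zs c d e i l ms := by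
  intro i
  induction i with
  | zero => intro l; exact hf l
  | succ i ih =>
    intro l
    rcases l with _ | ⟨a, l⟩
    · rfl
    · show a :: skip f i l = a :: zs c d e i l ms
      rw [ih]

lemma stepF_eq (i : ℕ) (lo up : List ℕ) (k : List ℕ → List ℕ → ℕ) :
    stepF i lo up k = k (stepD i (lo, up)).1 (stepD i (lo, up)).2 := by
  unfold stepF
  rw [skip_eq _ _ _ _ (adjMax 0 up) (fun l => goLo_eq _ _ _ l up 0)]
  show k (stepD i (lo, up)).1
    (skip (fun l => goUp 2 0 (2 * i + 1) l (stepD i (lo, up)).1 0) i up) = _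
  rw [skip_eq _ _ _ _ (adjMin 0 (stepD i (lo, up)).1) (fun l => goUp_eq _ _ _ l _ 0)]
  rfl

lemma runF_eq (fin : List ℕ → List ℕ → ℕ) (i0 : ℕ) : ∀ (m : ℕ) (lo up : List ℕ),
    runF fin m i0 lo up = fin (runD (desc i0 m) (lo, up)).1 (runD (desc i0 m) (lo, up)).2 := by
  intro m
  induction m with
  | zero => intro lo up; rfl
  | succ m ih =>
    intro lo up
    show stepF (i0 + m) lo up (fun lo' up' => runF fin m i0 lo' up') = _
    rw [stepF_eq, ih]
    rfl

lemma loF_eq (N i0 U : ℕ) : loF N i0 U = (runD (desc i0 (N - i0)) (initD U)).1.getD U 0 := by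
  unfold loF
  rw [runF_eq]
  rfl

lemma upF_eq (N i0 U : ℕ) : upF N i0 U = (runD (desc i0 (N - i0)) (initD U)).2.getD U 0 := by
  unfold upF
  rw [runF_eq]
  rfl

lemma mem_desc (i0 : ℕ) : ∀ (m i : ℕ), i ∈ desc i0 m ↔ i0 ≤ i ∧ i < i0 + m := by
  intro m
  induction m with
  | zero => intro i; simp [desc]
  | succ m ih =>
    intro i
    rw [desc, List.mem_cons, ih]
    omega

lemma nodup_desc (i0 : ℕ) : ∀ m, (desc i0 m).Nodup := by
  intro m
  induction m with
  | zero => simp [desc]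
  | succ m ih =>
    rw [desc, List.nodup_cons]
    refine ⟨?_, ih⟩
    rw [mem_desc]
    omega

end Pool.Agent.J6H13.MF
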