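import Pool.Agent.J6H13.MF.Frq

set_option autoImplicit false

/-!
# Frequency of Maier's irregularities: scales depending on `n`, moments
-/

namespace Pool.Agent.J6H13.MF

open Finset Filter Topology
open Pool.Agent.N610.MS

/-- scales `(log n) ^ a` -/
theorem freqn (c a : ℝ) (M : ℕ) (hc : 0 < c) (hc1 : c ≤ 1) (ha : 0 < a)
    (hM : a < c * ((M : ℝ) - 2)) :
    ∀ᶠ X : ℝ in atTop, ∀ σ : ℝ, (σ = 1 ∨ σ = -1) →
      X * Real.exp (-Real.log X ^ c) ≤
        (((Icc 1 ⌊3 * X⌋₊).filter (fun n : ℕ => X < n ∧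
          dl M ≤ σ * (R n (Real.log n ^ a) - 1))).card : ℝ) := by
  have hM2 : 2 < M := by
    by_contra hcon
    have h1 : (M : ℝ) ≤ 2 := by exact_mod_cast not_lt.1 hcon
    nlinarith
  have hδ := dl_pos (M := M) (by omega)
  have hδ1 := dl_le_one (M := M) (by omega)
  obtain ⟨a1, ha1, ha1'⟩ : ∃ a1 : ℝ, a < a1 ∧ a1 < c * ((M : ℝ) - 2) := exists_between hM
  have hθ : Tendsto (fun X : ℝ => (Real.log X / Real.log (3 * X)) ^ a) atTop (𝓝 1) := by
    have h6 := LIN.tend_quot.rpow_const (p := a) (Or.inl one_ne_zero)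
    rwa [Real.one_rpow] at h6
  have hδ4 : 5 / 4 * dl M ≤ 5 / 4 := by linarith
  have hb : max ((1 + dl M) / (1 + 5 / 4 * dl M)) (1 - dl M / 4) < 1 := by
    rw [max_lt_iff]
    constructor
    · rw [div_lt_one (by positivity)]
      linarith
    · linarith
  have e1 := hθ.eventually_const_lt hb
  have e2 : ∀ᶠ X : ℝ in atTop, Real.log (3 * X) ^ a ≤ Real.log X ^ a1 := by
    have h1 : ∀ᶠ L : ℝ in atTop, (2 : ℝ) ^ a ≤ L ^ (a1 - a) :=
      (tendsto_rpow_atTop (by linarith)).eventually_ge_atTop _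
    filter_upwards [Real.tendsto_log_atTop.eventually h1, eventually_ge_atTop (3 : ℝ)] with X h2 h3
    have hL : 0 < Real.log X := Real.log_pos (by linarith)
    have h4 : Real.log (3 * X) ≤ 2 * Real.log X := by
      rw [Real.log_mul (by norm_num) (by linarith)]
      have := Real.log_le_log (by norm_num : (0 : ℝ) < 3) h3
      linarith
    have h5 : 0 ≤ Real.log (3 * X) := Real.log_nonneg (by linarith)
    calc Real.log (3 * X) ^ a ≤ (2 * Real.log X) ^ a := Real.rpow_le_rpow h5 h4 ha.le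
      _ = 2 ^ a * Real.log X ^ a := Real.mul_rpow (by norm_num) hL.le
      _ ≤ Real.log X ^ (a1 - a) * Real.log X ^ a :=
          mul_le_mul_of_nonneg_right h2 (Real.rpow_nonneg hL.le _)
      _ = Real.log X ^ a1 := by
          rw [← Real.rpow_add hL]
          congr 1
          ring
  filter_upwards [freq c a a1 M hc hc1 ha ha1.le ha1', e1, e2, eventually_ge_atTop (3 : ℝ)] with
    X hX h1 h2 hX3 σ hσ
  have hX0 : 0 < X := by linarith
  have hL : 0 < Real.log X := Real.log_pos (by linarith)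
  have hL3 : 0 < Real.log (3 * X) := Real.log_pos (by linarith)
  have hLL : Real.log X ≤ Real.log (3 * X) := Real.log_le_log hX0 (by linarith)
  set θ := (Real.log X / Real.log (3 * X)) ^ a with hθd
  have hθ1 : (1 + dl M) / (1 + 5 / 4 * dl M) < θ := lt_of_le_of_lt (le_max_left _ _) h1
  have hθ2 : 1 - dl M / 4 < θ := lt_of_le_of_lt (le_max_right _ _) h1
  have hθ0 : 0 < θ := by linarith
  have hθm : θ * Real.log (3 * X) ^ a = Real.log X ^ a := by
    rw [hθd, Real.div_rpow hL.le hL3.le, div_mul_cancel₀]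
    exact (Real.rpow_pos_of_pos hL3 _).ne'
  have hmono : Real.log X ^ a ≤ Real.log (3 * X) ^ a := Real.rpow_le_rpow hL.le hLL ha.le
  have hfacts : ∀ n ∈ Icc 1 ⌊3 * X⌋₊, X < (n : ℝ) → 1 < n ∧ Real.log X ^ a ≤ Real.log n ^ a ∧
      Real.log n ^ a ≤ Real.log (3 * X) ^ a ∧ 0 < Real.log n ^ a := by
    intro n hn hXn
    rw [mem_Icc] at hn
    have hn3 : (n : ℝ) ≤ 3 * X := (Nat.le_floor_iff (by positivity)).1 hn.2
    have h3 : 1 < n := by
      have : (1 : ℝ) < n := by linarith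
      exact_mod_cast this
    have h4 : Real.log X ≤ Real.log n := Real.log_le_log hX0 hXn.le
    have h5 : Real.log n ≤ Real.log (3 * X) := Real.log_le_log (by linarith) hn3
    exact ⟨h3, Real.rpow_le_rpow hL.le h4 ha.le, Real.rpow_le_rpow (by linarith) h5 ha.le,
      Real.rpow_pos_of_pos (by linarith) _⟩
  rcases hσ with rfl | rfl
  · -- plus
    refine (hX (Real.log X ^ a) le_rfl (Real.rpow_le_rpow_of_exponent_le
      (by
        rw [Real.le_log_iff_exp_le hX0]
        have := Real.exp_one_lt_d9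
        linarith) ha1.le) 1 (Or.inl rfl)).trans ?_
    have hsub : (Icc 1 ⌊3 * X⌋₊).filter (fun n : ℕ => X < n ∧
          5 / 4 * dl M ≤ 1 * (R n (Real.log X ^ a) - 1)) ⊆
        (Icc 1 ⌊3 * X⌋₊).filter (fun n : ℕ => X < n ∧
          dl M ≤ 1 * (R n (Real.log n ^ a) - 1)) := by
      intro n hn
      rw [mem_filter] at hn ⊢
      obtain ⟨g0, g1, g2⟩ := hn
      obtain ⟨g3, g4, g5, g6⟩ := hfacts n g0 g1
      refine ⟨g0, g1, ?_⟩
      have g7 := LIN.R_cmp g3 hθ0.le (Real.rpow_pos_of_pos hL a) g4 (by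
        rw [← hθm]
        exact mul_le_mul_of_nonneg_left g5 hθ0.le)
      have g8 : 1 + dl M ≤ θ * (1 + 5 / 4 * dl M) := by
        rw [div_lt_iff₀ (by positivity)] at hθ1
        linarith
      have g9 : θ * (1 + 5 / 4 * dl M) ≤ θ * R n (Real.log X ^ a) :=
        mul_le_mul_of_nonneg_left (by linarith) hθ0.le
      linarith
    exact_mod_cast card_le_card hsub
  · -- minus
    refine (hX (Real.log (3 * X) ^ a) hmono h2 (-1) (Or.inr rfl)).trans ?_
    have hsub : (Icc 1 ⌊3 * X⌋₊).filter (fun n : ℕ => X < n ∧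
          5 / 4 * dl M ≤ (-1) * (R n (Real.log (3 * X) ^ a) - 1)) ⊆
        (Icc 1 ⌊3 * X⌋₊).filter (fun n : ℕ => X < n ∧
          dl M ≤ (-1) * (R n (Real.log n ^ a) - 1)) := by
      intro n hn
      rw [mem_filter] at hn ⊢
      obtain ⟨g0, g1, g2⟩ := hn
      obtain ⟨g3, g4, g5, g6⟩ := hfacts n g0 g1
      refine ⟨g0, g1, ?_⟩
      have g7 := LIN.R_cmp g3 hθ0.le g6 g5 (by rw [hθm]; exact g4)
      have g8 : θ * R n (Real.log n ^ a) ≤ 1 - 5 / 4 * dl M := by linarith
      have g10 : 0 ≤ 1 - 5 / 4 * dl M := by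
        have := LIN.R_nonneg g3 g6
        have := mul_nonneg hθ0.le this
        linarith
      have g9 : (1 - 5 / 4 * dl M) ≤ θ * (1 - dl M) := by
        have : (1 - dl M / 4) * (1 - dl M) ≤ θ * (1 - dl M) :=
          mul_le_mul_of_nonneg_right hθ2.le (by linarith)
        nlinarith
      have g11 : R n (Real.log n ^ a) ≤ 1 - dl M := by
        by_contra hcon
        rw [not_le] at hcon
        have := mul_lt_mul_of_pos_left hcon hθ0
        linarith
      linarith
    exact_mod_cast card_le_card hsub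

/-- the moments of high order do not tend to zero -/
theorem moments (c a0 a1 : ℝ) (M : ℕ) (hc : 0 < c) (hc1 : c ≤ 1) (ha0 : 0 < a0) (h01 : a0 ≤ a1)
    (hM : a1 < c * ((M : ℝ) - 2)) :
    ∀ᶠ X : ℝ in atTop, ∀ y : ℝ, Real.log X ^ a0 ≤ y → y ≤ Real.log X ^ a1 →
      ∀ k : ℕ, Real.log X ^ c ≤ k →
      (dl M / 3) ^ k * X ≤ ∑ n ∈ (Icc 1 ⌊3 * X⌋₊).filter (fun n : ℕ => X < n), |R n y - 1| ^ k := by
  have hM2 : 2 < M := by
    by_contra hcon
    have h1 : (M : ℝ) ≤ 2 := by exact_mod_cast not_lt.1 hcon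
    nlinarith
  have hδ := dl_pos (M := M) (by omega)
  filter_upwards [freq c a0 a1 M hc hc1 ha0 h01 hM, eventually_gt_atTop (0 : ℝ)] with
    X hX hX0 y hy0 hy1 k hk
  have h1 := hX y hy0 hy1 1 (Or.inl rfl)
  have hsub : (Icc 1 ⌊3 * X⌋₊).filter (fun n : ℕ => X < n ∧ 5 / 4 * dl M ≤ 1 * (R n y - 1)) ⊆
      (Icc 1 ⌊3 * X⌋₊).filter (fun n : ℕ => X < n) := by
    intro n hn
    rw [mem_filter] at hn ⊢
    exact ⟨hn.1, hn.2.1⟩
  have h2 : (((Icc 1 ⌊3 * X⌋₊).filter (fun n : ℕ => X < n ∧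
      5 / 4 * dl M ≤ 1 * (R n y - 1))).card : ℝ) * dl M ^ k ≤
      ∑ n ∈ (Icc 1 ⌊3 * X⌋₊).filter (fun n : ℕ => X < n), |R n y - 1| ^ k := by
    refine le_trans ?_ (sum_le_sum_of_subset_of_nonneg hsub (fun n _ _ => by positivity))
    rw [← nsmul_eq_mul, ← sum_const]
    refine sum_le_sum fun n hn => ?_
    rw [mem_filter] at hn
    apply pow_le_pow_left₀ hδ.le
    refine le_trans ?_ (le_abs_self _)
    linarith [hn.2.2]
  refine le_trans ?_ h2
  have h3 : X * (1 / 3) ^ k ≤ X * Real.exp (-Real.log X ^ c) := by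
    apply mul_le_mul_of_nonneg_left _ hX0.le
    calc ((1 : ℝ) / 3) ^ k ≤ (Real.exp (-1)) ^ k := by
          apply pow_le_pow_left₀ (by norm_num)
          rw [Real.exp_neg, one_div]
          apply inv_anti₀ (Real.exp_pos _)
          have := Real.exp_one_lt_d9
          linarith
      _ = Real.exp (-k) := by rw [← Real.exp_nat_mul]; ring_nf
      _ ≤ Real.exp (-Real.log X ^ c) := Real.exp_le_exp.2 (by linarith)
  calc (dl M / 3) ^ k * X = X * (1 / 3) ^ k * dl M ^ k := by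
        rw [div_pow, div_pow, one_pow]; ring
    _ ≤ X * Real.exp (-Real.log X ^ c) * dl M ^ k :=
        mul_le_mul_of_nonneg_right h3 (by positivity)
    _ ≤ _ := mul_le_mul_of_nonneg_right h1 (by positivity)

end Pool.Agent.J6H13.MF
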