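import Pool.Agent.J6H13.MF.Frq2

set_option autoImplicit false

/-!
# Larger constants in Maier's theorem: upper and lower limits
-/

namespace Pool.Agent.J6H13.MF

open Finset Filter Topology
open Pool.Agent.N610.MS

lemma lt_LO {N i0 U K : ℕ} (hN : 0 < N) (hi0 : 0 < i0) (h : K * 1000 * i0 < loF N i0 U * N) :
    (K : ℝ) / 1000 < LO N i0 U := by
  have hN0 : (0 : ℝ) < N := by exact_mod_cast hN
  have hi00 : (0 : ℝ) < i0 := by exact_mod_cast hi0
  have h1 : (K : ℝ) * 1000 * i0 < loF N i0 U * N := by exact_mod_cast h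
  unfold LO
  rw [lt_div_iff₀ (by positivity), lt_div_iff₀ (by norm_num)]
  have e : (K : ℝ) / 1000 * (i0 / N) * 1000000 = K * 1000 * i0 / N := by
    field_simp
    ring
  rw [e, div_lt_iff₀ hN0]
  exact h1

lemma UP_lt {N i0 U K : ℕ} (hN : 0 < N) (hi0 : 0 < i0) (h : upF N i0 U * N < K * 1000 * i0) :
    UP N i0 U < (K : ℝ) / 1000 := by
  have hN0 : (0 : ℝ) < N := by exact_mod_cast hN
  have hi00 : (0 : ℝ) < i0 := by exact_mod_cast hi0
  have h1 : (upF N i0 U : ℝ) * N < K * 1000 * i0 := by exact_mod_cast h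
  unfold UP
  rw [div_lt_iff₀ (by positivity), div_lt_iff₀ (by norm_num)]
  have e : (K : ℝ) / 1000 * (i0 / N) * 1000000 = K * 1000 * i0 / N := by
    field_simp
    ring
  rw [e, lt_div_iff₀ hN0]
  exact h1

/-- from many `n` to arbitrarily large `n` -/
lemma freq_of_count {c : ℝ} {p : ℝ → Prop} [∀ X : ℝ, DecidablePred fun n : ℕ => X < n ∧ p n]
    (h : ∀ᶠ X : ℝ in atTop, X * Real.exp (-Real.log X ^ c) ≤
      (((Icc 1 ⌊3 * X⌋₊).filter (fun n : ℕ => X < n ∧ p n)).card : ℝ)) :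
    ∃ᶠ x : ℝ in atTop, p x := by
  rw [frequently_atTop]
  intro b
  obtain ⟨X, hX⟩ := (h.and (eventually_ge_atTop (max b 1))).exists
  have hX1 : 1 ≤ X := (le_max_right b 1).trans hX.2
  have hXb : b ≤ X := (le_max_left b 1).trans hX.2
  have h1 : 0 < X * Real.exp (-Real.log X ^ c) := by positivity
  have h2 : 0 < ((Icc 1 ⌊3 * X⌋₊).filter (fun n : ℕ => X < n ∧ p n)).card := by
    have := lt_of_lt_of_le h1 hX.1
    exact_mod_cast this
  obtain ⟨n, hn⟩ := card_pos.1 h2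
  rw [mem_filter] at hn
  exact ⟨n, hXb.trans hn.2.1.le, hn.2.2⟩

lemma card_conv {X : ℝ} (hX : 0 < X) (p : ℕ → Prop) [DecidablePred (fun n : ℕ => X < n ∧ p n)]
    [DecidablePred p] :
    (((Icc 1 ⌊3 * X⌋₊).filter (fun n : ℕ => X < n ∧ p n)).card : ℝ) ≤
      (((Ioc ⌊X⌋₊ ⌊3 * X⌋₊).filter p).card : ℝ) := by
  have h : (Icc 1 ⌊3 * X⌋₊).filter (fun n : ℕ => X < n ∧ p n) ⊆ (Ioc ⌊X⌋₊ ⌊3 * X⌋₊).filter p := by
    intro n hn
    rw [mem_filter, mem_Icc] at hn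
    rw [mem_filter, mem_Ioc]
    exact ⟨⟨(Nat.floor_lt hX.le).2 hn.2.1, hn.1.2⟩, hn.2.2⟩
  exact_mod_cast card_le_card h

/-- one row of the table, large values -/
theorem rowU {N i0 U K : ℕ} {u κ : ℝ} (hi0 : 1 ≤ i0) (hiN : i0 < N) (hU : 1 ≤ U) (hK : 0 < K)
    (h : K * 1000 * i0 < loF N i0 U * N) (hu : u = (U : ℝ) / N) (hκ : κ = (K : ℝ) / 1000)
    (a : ℝ) (ha : 0 < a) (hau : a ≤ u) :
    (κ : EReal) ≤ limsup (fun x : ℝ => ((R x (Real.log x ^ a) : ℝ) : EReal)) atTop ∧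
    ∃ η : ℝ, 0 < η ∧ ∀ᶠ X : ℝ in atTop, X * Real.exp (-Real.log X ^ (a / u - η)) ≤
      (((Ioc ⌊X⌋₊ ⌊3 * X⌋₊).filter (fun n : ℕ => κ ≤ R n (Real.log n ^ a))).card : ℝ) := by
  have hK0 : (0 : ℝ) < K := by exact_mod_cast hK
  have hu0 : 0 < u := ha.trans_le hau
  have h1 := (freqn2 N i0 U hi0 hiN hU a ha (hu ▸ hau) κ (by rw [hκ]; positivity)).1
    (by rw [hκ]; exact lt_LO (by omega) (by omega) h)
  rw [← hu] at h1
  have e : a / u * (1 - 1 / (4 * ((U : ℝ) + 1))) = a / u - a / u * (1 / (4 * ((U : ℝ) + 1))) := by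
    ring
  rw [e] at h1
  refine ⟨?_, a / u * (1 / (4 * ((U : ℝ) + 1))), by positivity, ?_⟩
  · have h2 := freq_of_count (p := fun x : ℝ => κ ≤ R x (Real.log x ^ a)) h1
    refine Filter.le_limsup_of_frequently_le (h2.mono fun x hx => ?_) (by isBoundedDefault)
    exact_mod_cast hx
  · filter_upwards [h1, eventually_gt_atTop (0 : ℝ)] with X hX hX0
    exact hX.trans (card_conv hX0 _)

/-- one row of the table, small values -/
theorem rowL {N i0 U K : ℕ} {u κ : ℝ} (hi0 : 1 ≤ i0) (hiN : i0 < N) (hU : 1 ≤ U) (hK : 0 < K)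
    (h : upF N i0 U * N < K * 1000 * i0) (hu : u = (U : ℝ) / N) (hκ : κ = (K : ℝ) / 1000)
    (a : ℝ) (ha : 0 < a) (hau : a ≤ u) :
    liminf (fun x : ℝ => ((R x (Real.log x ^ a) : ℝ) : EReal)) atTop ≤ (κ : EReal) ∧
    ∃ η : ℝ, 0 < η ∧ ∀ᶠ X : ℝ in atTop, X * Real.exp (-Real.log X ^ (a / u - η)) ≤
      (((Ioc ⌊X⌋₊ ⌊3 * X⌋₊).filter (fun n : ℕ => R n (Real.log n ^ a) ≤ κ)).card : ℝ) := by
  have hK0 : (0 : ℝ) < K := by exact_mod_cast hK
  have hu0 : 0 < u := ha.trans_le hau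
  have h1 := (freqn2 N i0 U hi0 hiN hU a ha (hu ▸ hau) κ (by rw [hκ]; positivity)).2
    (by rw [hκ]; exact UP_lt (by omega) (by omega) h)
  rw [← hu] at h1
  have e : a / u * (1 - 1 / (4 * ((U : ℝ) + 1))) = a / u - a / u * (1 / (4 * ((U : ℝ) + 1))) := by
    ring
  rw [e] at h1
  refine ⟨?_, a / u * (1 / (4 * ((U : ℝ) + 1))), by positivity, ?_⟩
  · have h2 := freq_of_count (p := fun x : ℝ => R x (Real.log x ^ a) ≤ κ) h1
    refine Filter.liminf_le_of_frequently_le (h2.mono fun x hx => ?_) (by isBoundedDefault)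
    exact_mod_cast hx
  · filter_upwards [h1, eventually_gt_atTop (0 : ℝ)] with X hX hX0
    exact hX.trans (card_conv hX0 _)

end Pool.Agent.J6H13.MF
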