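import Pool.Agent.J6H13.MF.Cnt
import Pool.Agent.N610.MS.ROWS
import Pool.Agent.N610.MS.MAIN
import Pool.Agent.N610.MS.LIN

set_option autoImplicit false

/-!
# Frequency of Maier's irregularities
-/

namespace Pool.Agent.J6H13.MF

open Finset Filter Topology
open Pool.Agent.N610.MS
open Pool.Agent.H378R2 (WW PW GoodS)

/-- trivial upper bound for `R` -/
lemma R_le {n : ℕ} (hn : 1 < n) {y : ℝ} (hy : 1 ≤ y) : R n y ≤ Real.log n := by
  have hl : 0 < Real.log n := Real.log_pos (by exact_mod_cast hn)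
  unfold R
  have e1 : ⌊(n : ℝ) + y⌋₊ = n + ⌊y⌋₊ := by
    rw [add_comm, Nat.floor_add_natCast (by linarith), add_comm]
  rw [Nat.floor_natCast, e1, MAIN.cnt_eq, div_le_iff₀ (by positivity)]
  have h1 : (((Ioc n (n + ⌊y⌋₊)).filter Nat.Prime).card : ℝ) ≤ ⌊y⌋₊ := by
    have : ((Ioc n (n + ⌊y⌋₊)).filter Nat.Prime).card ≤ (Ioc n (n + ⌊y⌋₊)).card :=
      Finset.card_filter_le _ _
    rw [Nat.card_Ioc] at this
    exact_mod_cast (by omega : _ ≤ ⌊y⌋₊)
  have h2 : (⌊y⌋₊ : ℝ) ≤ y := Nat.floor_le (by linarith)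
  have h3 : Real.log n * (y / Real.log n) = y := by field_simp
  rw [h3]
  linarith

/-- the count, from the weights -/
lemma count_of_weights {X W δ Λ : ℝ} (hX : 0 < X) (hW : 0 < W) (hδ : 0 < δ) (hδ1 : δ ≤ 1) (hΛ : 1 ≤ Λ)
    (w g : ℕ → ℝ) (hw : ∀ n, 0 ≤ w n ∧ w n ≤ 20 * W / X)
    (hwn : ∀ n, w n ≠ 0 → X < n ∧ (n : ℝ) < 3 * X)
    (hws : ∑ n ∈ Icc 1 ⌊3 * X⌋₊, w n = 1)
    (hg : ∀ n : ℕ, X < n → (n : ℝ) < 3 * X → g n ≤ Λ)
    (hm : 3 / 2 * δ ≤ ∑ n ∈ Icc 1 ⌊3 * X⌋₊, w n * g n) :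
    δ * X / (80 * W * Λ) ≤
      (((Icc 1 ⌊3 * X⌋₊).filter (fun n : ℕ => X < n ∧ 5 / 4 * δ ≤ g n)).card : ℝ) := by
  classical
  have h1 : ∑ n ∈ Icc 1 ⌊3 * X⌋₊, w n * g n ≤ ∑ n ∈ Icc 1 ⌊3 * X⌋₊, (w n * (5 / 4 * δ) +
      if X < n ∧ 5 / 4 * δ ≤ g n then 20 * W / X * Λ else 0) := by
    refine Finset.sum_le_sum fun n hn => ?_
    by_cases hwn0 : w n = 0
    · rw [hwn0]
      split_ifs
      · have : 0 ≤ 20 * W / X * Λ := by positivity
        linarith
      · linarith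
    · obtain ⟨hn1, hn2⟩ := hwn n hwn0
      split_ifs with hc
      · have h2 : w n * g n ≤ w n * Λ := mul_le_mul_of_nonneg_left (hg n hn1 hn2) (hw n).1
        have h3 : w n * Λ ≤ 20 * W / X * Λ := mul_le_mul_of_nonneg_right (hw n).2 (by linarith)
        have h4 : 0 ≤ w n * (5 / 4 * δ) := mul_nonneg (hw n).1 (by positivity)
        linarith
      · have h2 : g n < 5 / 4 * δ := by
          by_contra hcon
          exact hc ⟨hn1, not_lt.1 hcon⟩
        have h3 := mul_le_mul_of_nonneg_left h2.le (hw n).1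
        linarith
  rw [Finset.sum_add_distrib, ← Finset.sum_mul, hws, ← Finset.sum_filter, Finset.sum_const,
    nsmul_eq_mul] at h1
  set K : ℝ := (((Icc 1 ⌊3 * X⌋₊).filter (fun n : ℕ => X < n ∧ 5 / 4 * δ ≤ g n)).card : ℝ) with hK
  have h2 : δ / 4 ≤ K * (20 * W / X * Λ) := by linarith
  rw [div_le_iff₀ (by positivity)]
  have h3 : K * (20 * W / X * Λ) * X = K * (20 * W * Λ) := by field_simp
  have h4 := mul_le_mul_of_nonneg_right h2 hX.le
  rw [h3] at h4
  linarith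

lemma ev_final (c δ : ℝ) (hc : 0 < c) (hδ : 0 < δ) : ∀ᶠ X : ℝ in atTop,
    X * Real.exp (-Real.log X ^ c) ≤
      δ * X / (80 * Real.exp (Real.log X ^ c / 2) * (3 * Real.log X)) := by
  have h1 : Tendsto (fun L : ℝ => L ^ c) atTop atTop := tendsto_rpow_atTop hc
  have h2 : ∀ᶠ L : ℝ in atTop, 240 / δ * L ≤ Real.exp (L ^ c / 2) := by
    obtain ⟨j, hj⟩ := exists_nat_gt (1 / c)
    have hj0 : (0 : ℝ) < j := lt_trans (by positivity) hj
    have hcj : 1 < c * j := by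
      rw [div_lt_iff₀ hc] at hj
      linarith
    -- exp u ≥ u ^ j / j!
    have h3 : ∀ᶠ L : ℝ in atTop, 240 / δ * (j.factorial * 2 ^ j) ≤ L ^ (c * j - 1) :=
      (tendsto_rpow_atTop (by linarith)).eventually_ge_atTop _
    filter_upwards [h3, eventually_gt_atTop (0 : ℝ)] with L h4 h5
    have h6 : (L ^ c / 2) ^ j / j.factorial ≤ Real.exp (L ^ c / 2) :=
      Real.pow_div_factorial_le_exp _ (by positivity) _
    refine le_trans ?_ h6
    have h7 : (L ^ c / 2) ^ j = L * L ^ (c * j - 1) / 2 ^ j := by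
      rw [div_pow, ← Real.rpow_natCast, ← Real.rpow_mul h5.le]
      congr 1
      nth_rewrite 2 [← Real.rpow_one L]
      rw [← Real.rpow_add h5]
      congr 1
      ring
    rw [h7, div_div, le_div_iff₀ (by positivity)]
    have h8 := mul_le_mul_of_nonneg_left h4 h5.le
    calc 240 / δ * L * (2 ^ j * j.factorial) = L * (240 / δ * (j.factorial * 2 ^ j)) := by ring
      _ ≤ _ := h8
  filter_upwards [Real.tendsto_log_atTop.eventually h2, eventually_gt_atTop (1 : ℝ)] with X h3 h4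
  have hX : 0 < X := by linarith
  have hL : 0 < Real.log X := Real.log_pos h4
  set u := Real.log X ^ c with hu
  rw [le_div_iff₀ (by positivity)]
  have h5 : Real.exp (-u) * Real.exp (u / 2) * Real.exp (u / 2) = 1 := by
    rw [← Real.exp_add, ← Real.exp_add, ← Real.exp_zero]
    congr 1
    ring
  have h6 : 240 * Real.log X ≤ δ * Real.exp (u / 2) := by
    have h7 := mul_le_mul_of_nonneg_left h3 hδ.le
    have h8 : δ * (240 / δ * Real.log X) = 240 * Real.log X := by field_simp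
    linarith
  have h7 : 0 ≤ X * Real.exp (-u) * Real.exp (u / 2) := by positivity
  calc X * Real.exp (-u) * (80 * Real.exp (u / 2) * (3 * Real.log X))
      = X * Real.exp (-u) * Real.exp (u / 2) * (240 * Real.log X) := by ring
    _ ≤ X * Real.exp (-u) * Real.exp (u / 2) * (δ * Real.exp (u / 2)) :=
        mul_le_mul_of_nonneg_left h6 h7
    _ = δ * X * (Real.exp (-u) * Real.exp (u / 2) * Real.exp (u / 2)) := by ring
    _ = δ * X := by rw [h5, mul_one]

/-- **the frequency of the irregularities at every scale** (with a small margin) -/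
theorem freq (c a0 a1 : ℝ) (M : ℕ) (hc : 0 < c) (hc1 : c ≤ 1) (ha0 : 0 < a0) (h01 : a0 ≤ a1)
    (hM : a1 < c * ((M : ℝ) - 2)) :
    ∀ᶠ X : ℝ in atTop, ∀ y : ℝ, Real.log X ^ a0 ≤ y → y ≤ Real.log X ^ a1 →
      ∀ σ : ℝ, (σ = 1 ∨ σ = -1) →
      X * Real.exp (-Real.log X ^ c) ≤
        (((Icc 1 ⌊3 * X⌋₊).filter (fun n : ℕ => X < n ∧ 5 / 4 * dl M ≤ σ * (R n y - 1))).card : ℝ) := by
  have hM2 : 2 < M := by
    by_contra hcon
    have h1 : (M : ℝ) ≤ 2 := by exact_mod_cast not_lt.1 hcon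
    nlinarith
  have hδ := dl_pos (M := M) (by omega)
  have hδ1 := dl_le_one (M := M) (by omega)
  set δ := dl M with hδd
  have hr := t_ROWS 1 (δ / 16) (by positivity)
  have hL : Tendsto (fun X : ℝ => 1 / Real.log X) atTop (nhds 0) := by
    simp only [one_div]
    exact Real.tendsto_log_atTop.inv_tendsto_atTop
  have hX10 : Tendsto (fun X : ℝ => X ^ (-(1 / 10) : ℝ)) atTop (nhds 0) :=
    tendsto_rpow_neg_atTop (by norm_num)
  have hpow : ∀ᶠ X : ℝ in atTop, Real.log X ^ a1 ≤ X ^ (9 / 10 : ℝ) := by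
    have := (isLittleO_log_rpow_rpow_atTop a1 (show (0 : ℝ) < 9 / 10 by norm_num)).bound
      (show (0 : ℝ) < 1 by norm_num)
    filter_upwards [this, eventually_ge_atTop (1 : ℝ)] with X hX hX1
    have hl : 0 ≤ Real.log X := Real.log_nonneg hX1
    rw [one_mul, Real.norm_of_nonneg (Real.rpow_nonneg hl _),
      Real.norm_of_nonneg (Real.rpow_nonneg (by linarith) _)] at hX
    exact hX
  filter_upwards [cntU c a0 a1 M hc hc1 ha0 h01 hM, hr,
    hL.eventually_le_const (show (0 : ℝ) < δ / 8 by positivity),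
    hX10.eventually_le_const (show (0 : ℝ) < δ / 8 by positivity), hpow,
    ev_final c δ hc hδ, eventually_ge_atTop (100 : ℝ)] with X hcX hrX hLX hX10X hpowX hfin hXe y hy0 hy1 σ hσ
  obtain ⟨ps, S, hS, hrow⟩ := hrX
  obtain ⟨P, hP, hPX, hPB, hc1'⟩ := hcX S ps hS y hy0 hy1 σ hσ
  obtain ⟨w, ρ, hρ, hw, hwn, hws, hwm⟩ := hrow P hP hPB
  have hX0 : 0 < X := by linarith
  have hlog : 1 < Real.log X := by
    rw [Real.lt_log_iff_exp_lt (by linarith)]
    have := Real.exp_one_lt_d9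
    linarith
  have hW : 0 < ∏ p ∈ P, p := by
    refine Finset.prod_pos fun p hp => ?_
    have h3 := hP hp
    rw [Pool.Agent.H378R2.PW, Finset.mem_filter] at h3
    exact h3.2.1.pos
  have hWr : (0 : ℝ) < ((∏ p ∈ P, p : ℕ) : ℝ) := by exact_mod_cast hW
  have hypos : 0 < y := lt_of_lt_of_le (Real.rpow_pos_of_pos (by linarith) _) hy0
  have hy1' : 1 ≤ y := (Real.one_le_rpow hlog.le ha0.le).trans hy0
  have hyX : y ≤ X ^ (9 / 10 : ℝ) := hy1.trans hpowX
  have hkey := MAIN.key (X := X) (L := Real.log X) (ρ := ρ) (ε' := δ / 16) (P := P) (w := w)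
      (y := y) (by linarith) (by linarith) rfl hPB hρ (fun n => (hw n).1)
      (fun n hn => (hwn n hn).1) hws hypos hyX (by
        have h5 : ((⌊y⌋₊ : ℕ) : ℝ) ≤ X ^ (9 / 10 : ℝ) := (Nat.floor_le hypos.le).trans hyX
        have h6 := hwm ⌊y⌋₊ h5
        rwa [pow_one] at h6)
  have hσa : ∀ z : ℝ, |σ * z| = |z| := by
    intro z
    rcases hσ with h | h <;> rw [h] <;> simp
  rw [← hσa] at hkey
  have h6 := (abs_le.1 hkey).1
  have hmean : 3 / 2 * δ ≤ ∑ n ∈ Icc 1 ⌊3 * X⌋₊, w n * (σ * (R n y - 1)) := by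
    have e : ∑ n ∈ Icc 1 ⌊3 * X⌋₊, w n * (σ * (R n y - 1)) =
        σ * (∑ n ∈ Icc 1 ⌊3 * X⌋₊, w n * R n y - rel P y) + σ * (rel P y - 1) := by
      have e2 : ∑ n ∈ Icc 1 ⌊3 * X⌋₊, w n * (σ * (R n y - 1)) =
          σ * (∑ n ∈ Icc 1 ⌊3 * X⌋₊, w n * R n y - ∑ n ∈ Icc 1 ⌊3 * X⌋₊, w n) := by
        rw [← Finset.sum_sub_distrib, Finset.mul_sum]
        refine Finset.sum_congr rfl fun n _ => by ring
      rw [e2, hws]
      ring
    rw [e]
    linarith
  have hlog3 : Real.log (3 * X) ≤ 3 * Real.log X := by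
    rw [Real.log_mul (by norm_num) hX0.ne']
    have : Real.log 3 ≤ Real.log X := Real.log_le_log (by norm_num) (by linarith)
    linarith
  have hg : ∀ n : ℕ, X < n → (n : ℝ) < 3 * X → σ * (R n y - 1) ≤ 3 * Real.log X := by
    intro n hn1 hn2
    have hn : 1 < n := by
      have : (1 : ℝ) < n := by linarith
      exact_mod_cast this
    have hn0 : (0 : ℝ) < n := by linarith
    have g1 := R_le hn hy1'
    have g2 := LIN.R_nonneg hn hypos
    have g3 : Real.log n ≤ Real.log (3 * X) := Real.log_le_log hn0 hn2.le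
    rcases hσ with h | h <;> rw [h] <;> linarith
  have hcount := count_of_weights (X := X) (W := ((∏ p ∈ P, p : ℕ) : ℝ)) (δ := δ)
    (Λ := 3 * Real.log X) hX0 hWr hδ hδ1 (by linarith) w (fun n => σ * (R n y - 1)) hw
    (fun n hn => ⟨(hwn n hn).1, (hwn n hn).2.1⟩) hws hg hmean
  refine hfin.trans (le_trans ?_ hcount)
  apply div_le_div_of_nonneg_left (by positivity) (by positivity)
  apply mul_le_mul_of_nonneg_right _ (by linarith)
  linarith

end Pool.Agent.J6H13.MF
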