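import Pool.Agent.J6H13.MF.Asy
import Pool.Agent.J6H13.MF.Fast
import Pool.Agent.J6H13.MF.Rows2
import Pool.Agent.J6H13.MF.Frq

set_option autoImplicit false

/-!
# Larger constants in Maier's theorem: from the sieve to the primes
-/

namespace Pool.Agent.J6H13.MF

open Finset Filter Topology
open Pool.Agent.N610.MS
open Pool.Agent.H378R2 (WW PW GoodS yy)

/-- the count, from the weights -/
lemma count_gen {X W s t Λ : ℝ} (hX : 0 < X) (hW : 0 < W) (hΛ : 0 < Λ)
    (w g : ℕ → ℝ) (hw : ∀ n, 0 ≤ w n ∧ w n ≤ 20 * W / X)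
    (hwn : ∀ n, w n ≠ 0 → X < n ∧ (n : ℝ) < 3 * X)
    (hws : ∑ n ∈ Icc 1 ⌊3 * X⌋₊, w n = 1)
    (hg : ∀ n : ℕ, X < n → (n : ℝ) < 3 * X → g n - t ≤ Λ)
    (hm : t + s ≤ ∑ n ∈ Icc 1 ⌊3 * X⌋₊, w n * g n) :
    s * X / (20 * W * Λ) ≤
      (((Icc 1 ⌊3 * X⌋₊).filter (fun n : ℕ => X < n ∧ t ≤ g n)).card : ℝ) := by
  classical
  have h1 : ∑ n ∈ Icc 1 ⌊3 * X⌋₊, w n * g n ≤ ∑ n ∈ Icc 1 ⌊3 * X⌋₊, (w n * t +
      if X < n ∧ t ≤ g n then 20 * W / X * Λ else 0) := by
    refine Finset.sum_le_sum fun n hn => ?_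
    by_cases hwn0 : w n = 0
    · rw [hwn0]
      split_ifs
      · have : 0 ≤ 20 * W / X * Λ := by positivity
        linarith
      · linarith
    · obtain ⟨hn1, hn2⟩ := hwn n hwn0
      split_ifs with hc
      · have h2 : w n * (g n - t) ≤ w n * Λ := mul_le_mul_of_nonneg_left (hg n hn1 hn2) (hw n).1
        have h3 : w n * Λ ≤ 20 * W / X * Λ := mul_le_mul_of_nonneg_right (hw n).2 hΛ.le
        have h4 : w n * g n = w n * t + w n * (g n - t) := by ring
        linarith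
      · have h2 : g n < t := by
          by_contra hcon
          exact hc ⟨hn1, not_lt.1 hcon⟩
        have h3 := mul_le_mul_of_nonneg_left h2.le (hw n).1
        linarith
  rw [Finset.sum_add_distrib, ← Finset.sum_mul, hws, ← Finset.sum_filter, Finset.sum_const,
    nsmul_eq_mul] at h1
  set K : ℝ := (((Icc 1 ⌊3 * X⌋₊).filter (fun n : ℕ => X < n ∧ t ≤ g n)).card : ℝ) with hK
  have h2 : s ≤ K * (20 * W / X * Λ) := by linarith
  rw [div_le_iff₀ (by positivity)]
  have h3 : K * (20 * W / X * Λ) * X = K * (20 * W * Λ) := by field_simp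
  have h4 := mul_le_mul_of_nonneg_right h2 hX.le
  rw [h3] at h4
  linarith

lemma ev_final2 (c' c'' s K : ℝ) (hc' : 0 < c') (hcc : c' < c'') (hs : 0 < s) (hK : 0 ≤ K) :
    ∀ᶠ X : ℝ in atTop, X * Real.exp (-Real.log X ^ c'') ≤
      s * X / (20 * Real.exp (2 * Real.log X ^ c') * (3 * Real.log X + K)) := by
  have hc'' : 0 < c'' := hc'.trans hcc
  have h1 : ∀ᶠ L : ℝ in atTop, Real.log L ≤ L ^ c'' / 8 := by
    have := (isLittleO_log_rpow_atTop hc'').bound (show (0 : ℝ) < 1 / 8 by norm_num)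
    filter_upwards [this, eventually_ge_atTop (1 : ℝ)] with L hL hL1
    rw [Real.norm_of_nonneg (Real.log_nonneg hL1),
      Real.norm_of_nonneg (Real.rpow_nonneg (by linarith) _)] at hL
    linarith
  have h2 : ∀ᶠ L : ℝ in atTop, Real.log (20 / s * (3 + K)) ≤ L ^ c'' / 8 := by
    have := (tendsto_rpow_atTop hc'').eventually_ge_atTop (8 * Real.log (20 / s * (3 + K)))
    filter_upwards [this] with L hL
    linarith
  have h3 : ∀ᶠ L : ℝ in atTop, 2 * L ^ c' ≤ L ^ c'' / 2 := by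
    have := (tendsto_rpow_atTop (sub_pos.2 hcc)).eventually_ge_atTop 4
    filter_upwards [this, eventually_gt_atTop (0 : ℝ)] with L hL hL0
    have e : L ^ c'' = L ^ (c'' - c') * L ^ c' := by
      rw [← Real.rpow_add hL0]
      congr 1
      ring
    rw [e]
    have := mul_le_mul_of_nonneg_right hL (Real.rpow_nonneg hL0.le c')
    linarith
  filter_upwards [Real.tendsto_log_atTop.eventually h1, Real.tendsto_log_atTop.eventually h2,
    Real.tendsto_log_atTop.eventually h3, Real.tendsto_log_atTop.eventually_ge_atTop (1 : ℝ),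
    eventually_gt_atTop (0 : ℝ)] with X g1 g2 g3 g4 g5
  set L := Real.log X with hL
  have hL0 : 0 < L := by linarith
  have hconst : 0 < 20 / s * (3 + K) := by positivity
  rw [le_div_iff₀ (by positivity)]
  have h4 : 20 / s * (3 + K) * L ≤ Real.exp (L ^ c'' / 4) := by
    calc 20 / s * (3 + K) * L = Real.exp (Real.log (20 / s * (3 + K)) + Real.log L) := by
          rw [Real.exp_add, Real.exp_log hconst, Real.exp_log hL0]
      _ ≤ _ := Real.exp_le_exp.2 (by linarith)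
  have h5 : 20 * (3 * L + K) ≤ s * Real.exp (L ^ c'' / 4) := by
    have h6 := mul_le_mul_of_nonneg_left h4 hs.le
    have h7 : s * (20 / s * (3 + K) * L) = 20 * (3 + K) * L := by field_simp
    rw [h7] at h6
    nlinarith
  have h8 : Real.exp (-L ^ c'') * Real.exp (2 * L ^ c') * Real.exp (L ^ c'' / 4) ≤ 1 := by
    rw [← Real.exp_add, ← Real.exp_add, ← Real.exp_zero]
    apply Real.exp_le_exp.2
    have : 0 ≤ L ^ c'' := Real.rpow_nonneg hL0.le _
    linarith
  calc X * Real.exp (-L ^ c'') * (20 * Real.exp (2 * L ^ c') * (3 * L + K))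
      = X * (Real.exp (-L ^ c'') * Real.exp (2 * L ^ c')) * (20 * (3 * L + K)) := by ring
    _ ≤ X * (Real.exp (-L ^ c'') * Real.exp (2 * L ^ c')) * (s * Real.exp (L ^ c'' / 4)) :=
        mul_le_mul_of_nonneg_left h5 (by positivity)
    _ = s * X * (Real.exp (-L ^ c'') * Real.exp (2 * L ^ c') * Real.exp (L ^ c'' / 4)) := by ring
    _ ≤ s * X * 1 := mul_le_mul_of_nonneg_left h8 (by positivity)
    _ = s * X := mul_one _

lemma pr_desc (i0 : ℕ) (hi0 : 1 ≤ i0) : ∀ m : ℕ, pr (desc i0 m) = (i0 : ℝ) / ((i0 : ℝ) + m) := by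
  have h0 : (0 : ℝ) < i0 := by exact_mod_cast hi0
  intro m
  induction m with
  | zero => simp [pr, desc, h0.ne']
  | succ m ih =>
    have h1 : pr (desc i0 (m + 1)) = (((i0 + m : ℕ) : ℝ) / (((i0 + m : ℕ) : ℝ) + 1)) *
        pr (desc i0 m) := by
      unfold pr
      rw [desc, List.toFinset_cons, Finset.prod_insert]
      rw [List.mem_toFinset, mem_desc]
      omega
    rw [h1, ih]
    push_cast
    field_simp
    ring

/-- lower bound -/
noncomputable def LO (N i0 U : ℕ) : ℝ := (loF N i0 U : ℝ) / 1000000 / ((i0 : ℝ) / N)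

/-- upper bound -/
noncomputable def UP (N i0 U : ℕ) : ℝ := (upF N i0 U : ℝ) / 1000000 / ((i0 : ℝ) / N)

set_option maxHeartbeats 1000000 in
/-- frequency of the irregularities -/
theorem freq2 (N i0 U : ℕ) (hi0 : 1 ≤ i0) (hiN : i0 < N) (hU : 1 ≤ U) (c : ℝ) (hc : 0 < c)
    (hc1 : c ≤ 1) (β : ℝ) (hβ : 0 < β) :
    ∀ᶠ X : ℝ in atTop, ∀ y : ℝ, Real.log X ^ (c * U / N) ≤ y →
      y ≤ Real.log X ^ (c * (U + 1 / 2) / N) →
      X * Real.exp (-Real.log X ^ (c * (1 - 1 / (4 * ((U : ℝ) + 1))))) ≤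
        (((Icc 1 ⌊3 * X⌋₊).filter (fun n : ℕ => X < n ∧ LO N i0 U - β ≤ R n y)).card : ℝ) ∧
      X * Real.exp (-Real.log X ^ (c * (1 - 1 / (4 * ((U : ℝ) + 1))))) ≤
        (((Icc 1 ⌊3 * X⌋₊).filter (fun n : ℕ => X < n ∧ R n y ≤ UP N i0 U + β)).card : ℝ) := by
  have hN : 0 < N := by omega
  have hN0 : (0 : ℝ) < N := by exact_mod_cast hN
  have hi00 : (0 : ℝ) < i0 := by exact_mod_cast hi0
  have hU0 : (0 : ℝ) < U := by exact_mod_cast hU
  set I := desc i0 (N - i0) with hI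
  have hImem : ∀ i ∈ I, 1 ≤ i ∧ i < N := by
    intro i hi
    rw [hI, mem_desc] at hi
    omega
  have hpr : pr I = (i0 : ℝ) / N := by
    rw [hI, pr_desc i0 hi0, Nat.cast_sub hiN.le]
    congr 1
    ring
  have hLO : loR (runD I (initD U)) U / pr I = LO N i0 U := by
    rw [hpr, LO, loF_eq, loR]
  have hUP : upR (runD I (initD U)) U / pr I = UP N i0 U := by
    rw [hpr, UP, upF_eq, upR]
  obtain ⟨b0, hb0⟩ : ∃ b0 : ℝ, b0 = pr I / 2 := ⟨_, rfl⟩
  have hb0p : 0 < b0 := by rw [hb0, hpr]; positivity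
  obtain ⟨μ0, hμ0, hasy⟩ := asy N hN I hImem (nodup_desc _ _) U (β / 4) (by positivity)
  rw [hLO, hUP] at hasy
  obtain ⟨c', hc'⟩ : ∃ c' : ℝ, c' = c * (1 - 1 / (2 * ((U : ℝ) + 1))) := ⟨_, rfl⟩
  obtain ⟨c'', hc''⟩ : ∃ c'' : ℝ, c'' = c * (1 - 1 / (4 * ((U : ℝ) + 1))) := ⟨_, rfl⟩
  have hη0 : 1 / (2 * ((U : ℝ) + 1)) < 1 := by
    rw [div_lt_one (by positivity)]
    linarith
  have hηpos : 0 < 1 / (2 * ((U : ℝ) + 1)) := by positivity
  have hc'0 : 0 < c' := by rw [hc']; exact mul_pos hc (by linarith)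
  have hη4 : 1 / (4 * ((U : ℝ) + 1)) = 1 / (2 * ((U : ℝ) + 1)) / 2 := by field_simp; ring
  have hcc : c' < c'' := by
    rw [hc', hc'', hη4]
    apply mul_lt_mul_of_pos_left _ hc
    linarith
  have hc'c : c' < c := by
    rw [hc']
    nlinarith
  rw [← hc'']
  have hr := rowsB b0 hb0p 1 (b0 * (β / 16)) (by positivity)
  have hL : Tendsto (fun X : ℝ => 1 / Real.log X) atTop (nhds 0) := by
    simp only [one_div]
    exact Real.tendsto_log_atTop.inv_tendsto_atTop
  have hX10 : Tendsto (fun X : ℝ => X ^ (-(1 / 10) : ℝ)) atTop (nhds 0) :=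
    tendsto_rpow_neg_atTop (by norm_num)
  set a1 : ℝ := c * (U + 1 / 2) / N with ha1
  have hpow : ∀ᶠ X : ℝ in atTop, Real.log X ^ a1 ≤ X ^ (9 / 10 : ℝ) := by
    have := (isLittleO_log_rpow_rpow_atTop a1 (show (0 : ℝ) < 9 / 10 by norm_num)).bound
      (show (0 : ℝ) < 1 by norm_num)
    filter_upwards [this, eventually_ge_atTop (1 : ℝ)] with X hX hX1
    have hl : 0 ≤ Real.log X := Real.log_nonneg hX1
    rw [one_mul, Real.norm_of_nonneg (Real.rpow_nonneg hl _),
      Real.norm_of_nonneg (Real.rpow_nonneg (by linarith) _)] at hX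
    exact hX
  have hzt : Tendsto (fun X : ℝ => Real.log X ^ c') atTop atTop :=
    (tendsto_rpow_atTop hc'0).comp Real.tendsto_log_atTop
  have T2 : ∀ᶠ L : ℝ in atTop, 6 / (Real.log L) ^ 2 ≤ μ0 := by
    have h3 : Tendsto (fun L : ℝ => 6 / (Real.log L) ^ 2) atTop (𝓝 0) :=
      ((tendsto_pow_atTop two_ne_zero).comp Real.tendsto_log_atTop).const_div_atTop 6
    exact h3.eventually (eventually_le_nhds hμ0)
  have T3 : ∀ᶠ L : ℝ in atTop, 1000 ≤ L ^ (1 - c') :=
    (tendsto_rpow_atTop (by linarith)).eventually_ge_atTop _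
  obtain ⟨K, hK0, hKL, hKU⟩ : ∃ K : ℝ, 0 ≤ K ∧ -(LO N i0 U - β) ≤ K ∧ UP N i0 U + β ≤ K :=
    ⟨max 0 (max (-(LO N i0 U - β)) (UP N i0 U + β)), le_max_left _ _,
      (le_max_left _ _).trans (le_max_right _ _), (le_max_right _ _).trans (le_max_right _ _)⟩
  filter_upwards [hzt.eventually hasy, hr, Real.tendsto_log_atTop.eventually T2,
    Real.tendsto_log_atTop.eventually T3,
    hL.eventually_le_const (show (0 : ℝ) < β / 16 by positivity),
    hX10.eventually_le_const (show (0 : ℝ) < β / 16 by positivity), hpow,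
    ev_final2 c' c'' (β / 2) K hc'0 hcc (by positivity) hK0,
    eventually_ge_atTop (100 : ℝ)] with X hz hrX t2 t3 hLX hX10X hpowX hfin hXe y hy0 hy1
  obtain ⟨ps, S, hS, hrow⟩ := hrX
  obtain ⟨P, hPmem, hPB, hPrel⟩ := hz S ps (hS.2.trans t2)
  rw [← hb0] at hPB
  have hX0 : 0 < X := by linarith
  have hlog : 1 < Real.log X := by
    rw [Real.lt_log_iff_exp_lt (by linarith)]
    have := Real.exp_one_lt_d9
    linarith
  have hlog0 : 0 < Real.log X := by linarith
  set z := Real.log X ^ c' with hzd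
  have hz0 : 0 < z := Real.rpow_pos_of_pos hlog0 _
  have hz1 : z * 1000 ≤ Real.log X := by
    calc z * 1000 ≤ z * Real.log X ^ (1 - c') := mul_le_mul_of_nonneg_left t3 hz0.le
      _ = Real.log X ^ (1 : ℝ) := by
          rw [hzd, ← Real.rpow_add hlog0]
          congr 1
          ring
      _ = Real.log X := Real.rpow_one _
  have hPsub : P ⊆ PW X S ps := by
    intro p hp
    obtain ⟨g1, g2, g3, g4⟩ := hPmem p hp
    rw [PW, mem_filter, mem_Icc]
    refine ⟨⟨g1.one_lt.le, ?_⟩, g1, g3, g4⟩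
    apply Nat.le_floor
    rw [le_div_iff₀ (by norm_num)]
    linarith
  obtain ⟨w, ρ, hρ, hw, hwn, hws, hwm⟩ := hrow P hPsub hPB
  have hW : 0 < ∏ p ∈ P, p := Finset.prod_pos fun p hp => (hPmem p hp).1.pos
  have hWr : (0 : ℝ) < ((∏ p ∈ P, p : ℕ) : ℝ) := by exact_mod_cast hW
  have hWexp : ((∏ p ∈ P, p : ℕ) : ℝ) ≤ Real.exp (2 * z) := by
    have h3 := CNTaux.prod_le_primorial P ⌊z⌋₊ (fun p hp => ⟨(hPmem p hp).1,
      Nat.le_floor (hPmem p hp).2.1⟩)
    have hlog4 : Real.log 4 ≤ 2 := by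
      rw [show (4 : ℝ) = 2 ^ 2 by norm_num, Real.log_pow]
      have := Real.log_two_lt_d9
      push_cast
      linarith
    calc ((∏ p ∈ P, p : ℕ) : ℝ) ≤ ((4 ^ ⌊z⌋₊ : ℕ) : ℝ) := by exact_mod_cast h3
      _ = (4 : ℝ) ^ (⌊z⌋₊ : ℝ) := by push_cast; rw [Real.rpow_natCast]
      _ ≤ (4 : ℝ) ^ z :=
          Real.rpow_le_rpow_of_exponent_le (by norm_num) (Nat.floor_le hz0.le)
      _ = Real.exp (Real.log 4 * z) := by rw [Real.rpow_def_of_pos (by norm_num)]
      _ ≤ Real.exp (2 * z) := by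
          apply Real.exp_le_exp.mpr
          nlinarith
  have hy1' : 1 ≤ y := (Real.one_le_rpow hlog.le (by positivity)).trans hy0
  have hypos : 0 < y := by linarith
  have hyX : y ≤ X ^ (9 / 10 : ℝ) := hy1.trans hpowX
  have hkey := keyB (X := X) (L := Real.log X) (ρ := ρ) (ε' := b0 * (β / 16)) (P := P) (w := w)
      (y := y) (b0 := b0) (by linarith) hb0p rfl hPB hρ (fun n => (hw n).1)
      (fun n hn => (hwn n hn).1) hws hypos hyX hlog0 (by
        have h5 : ((⌊y⌋₊ : ℕ) : ℝ) ≤ X ^ (9 / 10 : ℝ) := (Nat.floor_le hypos.le).trans hyX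
        have h6 := hwm ⌊y⌋₊ h5
        rwa [pow_one] at h6)
  have hb0' : b0 * (β / 16) / b0 = β / 16 := by field_simp
  rw [hb0'] at hkey
  have hkey2 : |∑ n ∈ Icc 1 ⌊3 * X⌋₊, w n * R n y - rel P y| ≤ β / 4 := by linarith
  rw [abs_le] at hkey2
  obtain ⟨hr1, hr2⟩ := hPrel y (by
    refine le_trans ?_ hy0
    rw [hzd, ← Real.rpow_mul hlog0.le]
    apply Real.rpow_le_rpow_of_exponent_le hlog.le
    rw [mul_div_assoc]
    exact mul_le_mul_of_nonneg_right hc'c.le (by positivity)) (by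
    refine hy1.trans (le_of_eq ?_)
    rw [hzd, ← Real.rpow_mul hlog0.le]
    congr 1
    rw [ha1, hc']
    field_simp
    ring)
  have hlog3 : Real.log (3 * X) ≤ 3 * Real.log X := by
    rw [Real.log_mul (by norm_num) hX0.ne']
    have : Real.log 3 ≤ Real.log X := Real.log_le_log (by norm_num) (by linarith)
    linarith
  have hnf : ∀ n : ℕ, X < n → (n : ℝ) < 3 * X → 0 ≤ R n y ∧ R n y ≤ 3 * Real.log X := by
    intro n hn1 hn2
    have hn : 1 < n := by
      have : (1 : ℝ) < n := by linarith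
      exact_mod_cast this
    have hn0 : (0 : ℝ) < n := by linarith
    have g1 := R_le hn hy1'
    have g2 := LIN.R_nonneg hn hypos
    have g3 : Real.log n ≤ Real.log (3 * X) := Real.log_le_log hn0 hn2.le
    exact ⟨g2, by linarith⟩
  have hden : β / 2 * X / (20 * Real.exp (2 * z) * (3 * Real.log X + K)) ≤
      β / 2 * X / (20 * ((∏ p ∈ P, p : ℕ) : ℝ) * (3 * Real.log X + K)) := by
    apply div_le_div_of_nonneg_left (by positivity) (by positivity)
    apply mul_le_mul_of_nonneg_right _ (by positivity)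
    linarith
  constructor
  · have hcount := count_gen (X := X) (W := ((∏ p ∈ P, p : ℕ) : ℝ)) (s := β / 2)
      (t := LO N i0 U - β) (Λ := 3 * Real.log X + K) hX0 hWr (by positivity) w (fun n => R n y) hw
      (fun n hn => ⟨(hwn n hn).1, (hwn n hn).2.1⟩) hws (by
        intro n hn1 hn2
        have := (hnf n hn1 hn2).2
        show R n y - (LO N i0 U - β) ≤ _
        linarith) (by
        show LO N i0 U - β + β / 2 ≤ ∑ n ∈ Icc 1 ⌊3 * X⌋₊, w n * R n y
        linarith [hkey2.1])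
    exact hfin.trans (hden.trans hcount)
  · have hcount := count_gen (X := X) (W := ((∏ p ∈ P, p : ℕ) : ℝ)) (s := β / 2)
      (t := -(UP N i0 U + β)) (Λ := 3 * Real.log X + K) hX0 hWr (by positivity) w
      (fun n => -R n y) hw
      (fun n hn => ⟨(hwn n hn).1, (hwn n hn).2.1⟩) hws (by
        intro n hn1 hn2
        have := (hnf n hn1 hn2).1
        show -R n y - (-(UP N i0 U + β)) ≤ _
        linarith) (by
        have e : ∑ n ∈ Icc 1 ⌊3 * X⌋₊, w n * -R n y = -∑ n ∈ Icc 1 ⌊3 * X⌋₊, w n * R n y := by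
          rw [← Finset.sum_neg_distrib]
          refine Finset.sum_congr rfl fun n _ => by ring
        rw [e]
        linarith [hkey2.2])
    refine hfin.trans (hden.trans (hcount.trans (le_of_eq ?_)))
    congr 2
    ext n
    rw [mem_filter, mem_filter, neg_le_neg_iff]

set_option maxHeartbeats 1000000 in
/-- scales `(log n) ^ a` -/
theorem freqn2 (N i0 U : ℕ) (hi0 : 1 ≤ i0) (hiN : i0 < N) (hU : 1 ≤ U) (a : ℝ) (ha : 0 < a)
    (haU : a ≤ (U : ℝ) / N) (κ : ℝ) (hκ : 0 < κ) :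
    (κ < LO N i0 U → ∀ᶠ X : ℝ in atTop,
      X * Real.exp (-Real.log X ^ (a / ((U : ℝ) / N) * (1 - 1 / (4 * ((U : ℝ) + 1))))) ≤
        (((Icc 1 ⌊3 * X⌋₊).filter (fun n : ℕ => X < n ∧ κ ≤ R n (Real.log n ^ a))).card : ℝ)) ∧
    (UP N i0 U < κ → ∀ᶠ X : ℝ in atTop,
      X * Real.exp (-Real.log X ^ (a / ((U : ℝ) / N) * (1 - 1 / (4 * ((U : ℝ) + 1))))) ≤
        (((Icc 1 ⌊3 * X⌋₊).filter (fun n : ℕ => X < n ∧ R n (Real.log n ^ a) ≤ κ)).card : ℝ)) := by
  have hN : 0 < N := by omega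
  have hN0 : (0 : ℝ) < N := by exact_mod_cast hN
  have hU0 : (0 : ℝ) < U := by exact_mod_cast hU
  obtain ⟨c, hcd⟩ : ∃ c : ℝ, c = a / ((U : ℝ) / N) := ⟨_, rfl⟩
  have hc : 0 < c := by rw [hcd]; positivity
  have hc1 : c ≤ 1 := by rw [hcd, div_le_one (by positivity)]; exact haU
  have hcU : c * U / N = a := by rw [hcd]; field_simp
  rw [← hcd]
  set a1 : ℝ := c * (U + 1 / 2) / N with ha1
  have haa1 : a < a1 := by
    rw [← hcU, ha1]
    apply div_lt_div_of_pos_right _ hN0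
    apply mul_lt_mul_of_pos_left _ hc
    linarith
  have hθ : Tendsto (fun X : ℝ => (Real.log X / Real.log (3 * X)) ^ a) atTop (𝓝 1) := by
    have h6 := LIN.tend_quot.rpow_const (p := a) (Or.inl one_ne_zero)
    rwa [Real.one_rpow] at h6
  have e2 : ∀ᶠ X : ℝ in atTop, Real.log (3 * X) ^ a ≤ Real.log X ^ a1 := by
    have h1 : ∀ᶠ L : ℝ in atTop, (2 : ℝ) ^ a ≤ L ^ (a1 - a) :=
      (tendsto_rpow_atTop (by linarith)).eventually_ge_atTop _
    filter_upwards [Real.tendsto_log_atTop.eventually h1, eventually_ge_atTop (3 : ℝ)] with X h2 h3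
    have hL : 0 < Real.log X := Real.log_pos (by linarith)
    have h4 : Real.log (3 * X) ≤ 2 * Real.log X := by
      rw [Real.log_mul (by norm_num) (by linarith)]
      have := Real.log_le_log (by norm_num : (0 : ℝ) < 3) h3
      linarith
    have h5 : 0 ≤ Real.log (3 * X) := Real.log_nonneg (by linarith)
    calc Real.log (3 * X) ^ a ≤ (2 * Real.log X) ^ a := Real.rpow_le_rpow h5 h4 ha.le
      _ = 2 ^ a * Real.log X ^ a := Real.mul_rpow (by norm_num) hL.le
      _ ≤ Real.log X ^ (a1 - a) * Real.log X ^ a :=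
          mul_le_mul_of_nonneg_right h2 (Real.rpow_nonneg hL.le _)
      _ = Real.log X ^ a1 := by
          rw [← Real.rpow_add hL]
          congr 1
          ring
  have hfacts : ∀ X : ℝ, 3 ≤ X → ∀ n ∈ Icc 1 ⌊3 * X⌋₊, X < (n : ℝ) →
      1 < n ∧ Real.log X ^ a ≤ Real.log n ^ a ∧
      Real.log n ^ a ≤ Real.log (3 * X) ^ a ∧ 0 < Real.log n ^ a := by
    intro X hX3 n hn hXn
    have hX0 : 0 < X := by linarith
    have hL : 0 < Real.log X := Real.log_pos (by linarith)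
    rw [mem_Icc] at hn
    have hn3 : (n : ℝ) ≤ 3 * X := (Nat.le_floor_iff (by positivity)).1 hn.2
    have h3 : 1 < n := by
      have : (1 : ℝ) < n := by linarith
      exact_mod_cast this
    have h4 : Real.log X ≤ Real.log n := Real.log_le_log hX0 hXn.le
    have h5 : Real.log n ≤ Real.log (3 * X) := Real.log_le_log (by linarith) hn3
    exact ⟨h3, Real.rpow_le_rpow hL.le h4 ha.le, Real.rpow_le_rpow (by linarith) h5 ha.le,
      Real.rpow_pos_of_pos (by linarith) _⟩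
  constructor
  · intro hlt
    obtain ⟨β, hβd⟩ : ∃ β : ℝ, β = (LO N i0 U - κ) / 2 := ⟨_, rfl⟩
    have hβ : 0 < β := by rw [hβd]; linarith
    have e1 := hθ.eventually_const_lt (show κ / (κ + β) < 1 by
      rw [div_lt_one (by positivity)]; linarith)
    filter_upwards [freq2 N i0 U hi0 hiN hU c hc hc1 β hβ, e1, e2, eventually_ge_atTop (3 : ℝ)] with
      X hX h1 h2 hX3
    have hX0 : 0 < X := by linarith
    have hL : 0 < Real.log X := Real.log_pos (by linarith)
    have hL3 : 0 < Real.log (3 * X) := Real.log_pos (by linarith)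
    set θ := (Real.log X / Real.log (3 * X)) ^ a with hθd
    have hθ0 : 0 < θ := lt_trans (by positivity) h1
    have hθm : θ * Real.log (3 * X) ^ a = Real.log X ^ a := by
      rw [hθd, Real.div_rpow hL.le hL3.le, div_mul_cancel₀]
      exact (Real.rpow_pos_of_pos hL3 _).ne'
    have hLL : Real.log X ≤ Real.log (3 * X) := Real.log_le_log hX0 (by linarith)
    have hmono : Real.log X ^ a ≤ Real.log (3 * X) ^ a := Real.rpow_le_rpow hL.le hLL ha.le
    refine ((hX (Real.log X ^ a) (by rw [hcU]) (hmono.trans h2)).1).trans ?_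
    have hsub : (Icc 1 ⌊3 * X⌋₊).filter (fun n : ℕ => X < n ∧
          LO N i0 U - β ≤ R n (Real.log X ^ a)) ⊆
        (Icc 1 ⌊3 * X⌋₊).filter (fun n : ℕ => X < n ∧ κ ≤ R n (Real.log n ^ a)) := by
      intro n hn
      rw [mem_filter] at hn ⊢
      obtain ⟨g0, g1, g2⟩ := hn
      obtain ⟨g3, g4, g5, g6⟩ := hfacts X hX3 n g0 g1
      refine ⟨g0, g1, ?_⟩
      have g7 := LIN.R_cmp g3 hθ0.le (Real.rpow_pos_of_pos hL a) g4 (by
        rw [← hθm]
        exact mul_le_mul_of_nonneg_left g5 hθ0.le)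
      have g8 : κ ≤ θ * (κ + β) := by
        rw [div_lt_iff₀ (by positivity)] at h1
        exact h1.le
      have g9 : θ * (κ + β) ≤ θ * R n (Real.log X ^ a) := by
        apply mul_le_mul_of_nonneg_left _ hθ0.le
        rw [hβd] at g2 ⊢
        linarith
      linarith
    exact_mod_cast card_le_card hsub
  · intro hlt
    obtain ⟨β, hβd⟩ : ∃ β : ℝ, β = (κ - UP N i0 U) / 2 := ⟨_, rfl⟩
    have hβ : 0 < β := by rw [hβd]; linarith
    have hUP0 : 0 ≤ UP N i0 U := by unfold UP; positivity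
    have e1 := hθ.eventually_const_lt (show (κ - β) / κ < 1 by
      rw [div_lt_one (by positivity)]; linarith)
    have e1' := hθ.eventually_const_lt (show (0 : ℝ) < 1 by norm_num)
    filter_upwards [freq2 N i0 U hi0 hiN hU c hc hc1 β hβ, e1, e2, eventually_ge_atTop (3 : ℝ),
      e1'] with X hX h1 h2 hX3 hθ0
    have hX0 : 0 < X := by linarith
    have hL : 0 < Real.log X := Real.log_pos (by linarith)
    have hL3 : 0 < Real.log (3 * X) := Real.log_pos (by linarith)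
    set θ := (Real.log X / Real.log (3 * X)) ^ a with hθd
    have hθm : θ * Real.log (3 * X) ^ a = Real.log X ^ a := by
      rw [hθd, Real.div_rpow hL.le hL3.le, div_mul_cancel₀]
      exact (Real.rpow_pos_of_pos hL3 _).ne'
    have hLL : Real.log X ≤ Real.log (3 * X) := Real.log_le_log hX0 (by linarith)
    have hmono : Real.log X ^ a ≤ Real.log (3 * X) ^ a := Real.rpow_le_rpow hL.le hLL ha.le
    refine ((hX (Real.log (3 * X) ^ a) (by rw [hcU]; exact hmono) h2).2).trans ?_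
    have hsub : (Icc 1 ⌊3 * X⌋₊).filter (fun n : ℕ => X < n ∧
          R n (Real.log (3 * X) ^ a) ≤ UP N i0 U + β) ⊆
        (Icc 1 ⌊3 * X⌋₊).filter (fun n : ℕ => X < n ∧ R n (Real.log n ^ a) ≤ κ) := by
      intro n hn
      rw [mem_filter] at hn ⊢
      obtain ⟨g0, g1, g2⟩ := hn
      obtain ⟨g3, g4, g5, g6⟩ := hfacts X hX3 n g0 g1
      refine ⟨g0, g1, ?_⟩
      have g7 := LIN.R_cmp g3 hθ0.le g6 g5 (by rw [hθm]; exact g4)
      have g8 : κ - β ≤ θ * κ := by
        rw [div_lt_iff₀ hκ] at h1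
        linarith
      have g9 : UP N i0 U + β = κ - β := by rw [hβd]; ring
      by_contra hcon
      rw [not_le] at hcon
      have := mul_lt_mul_of_pos_left hcon hθ0
      linarith
    exact_mod_cast card_le_card hsub

end Pool.Agent.J6H13.MF
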