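import Pool.Agent.J6H13.MF.Fast

set_option autoImplicit false

/-!
# Values of the recursion (evaluated by the kernel), first part
-/

namespace Pool.Agent.J6H13.MF

theorem tU1 : 1308 * 1000 * 65 < loF 400 65 560 * 400 := by decide +kernel

theorem tU2 : 1274 * 1000 * 79 < loF 400 79 600 * 400 := by decide +kernel

theorem tU3 : 1171 * 1000 * 119 < loF 400 119 700 * 400 := by decide +kernel

end Pool.Agent.J6H13.MF
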