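import Pool.Agent.J6H13.MF.Fast

set_option autoImplicit false

/-!
# Values of the recursion (evaluated by the kernel), second part
-/

namespace Pool.Agent.J6H13.MF

theorem tU4 : 1075 * 1000 * 164 < loF 400 164 800 * 400 := by decide +kernel

theorem tU5 : 1021 * 1000 * 215 < loF 400 215 900 * 400 := by decide +kernel

theorem tL1 : upF 400 125 440 * 400 < 371 * 1000 * 125 := by decide +kernel

theorem tL2 : upF 400 163 500 * 400 < 660 * 1000 * 163 := by decide +kernel

theorem tL3 : upF 400 201 560 * 400 < 825 * 1000 * 201 := by decide +kernel

end Pool.Agent.J6H13.MF
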