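import Pool.Agent.J6H13.MF.Fast

set_option autoImplicit false

/-!
# Values of the recursion (evaluated by the kernel), third part
-/

namespace Pool.Agent.J6H13.MF

theorem tL4 : upF 400 99 920 * 400 < 971 * 1000 * 99 := by decide +kernel

theorem tL5 : upF 400 129 1000 * 400 < 980 * 1000 * 129 := by decide +kernel

theorem tL6 : upF 400 171 1100 * 400 < 992 * 1000 * 171 := by decide +kernel

end Pool.Agent.J6H13.MF
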